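import Mathlib

set_option autoImplicit false
set_option linter.unusedSectionVars false

/-!
# Sums over words in a finite symmetric subset of a group
-/

namespace Pool.Agent.Lib.MP_a22f36

section Words

variable {Γ : Type} [Group Γ]

/-- The sum of `F (s₁ ⋯ sₙ)` over all words of length `n` in `S`. -/
def W (S : Finset Γ) : ℕ → (Γ → ℝ) → ℝ
  | 0, F => F 1
  | (n + 1), F => ∑ s ∈ S, W S n (fun γ => F (γ * s))

lemma W_zero (S : Finset Γ) (F : Γ → ℝ) : W S 0 F = F 1 := rfl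

lemma W_succ (S : Finset Γ) (n : ℕ) (F : Γ → ℝ) :
    W S (n + 1) F = ∑ s ∈ S, W S n (fun γ => F (γ * s)) := rfl

lemma W_mono (S : Finset Γ) (n : ℕ) : ∀ (F F' : Γ → ℝ), (∀ γ, F γ ≤ F' γ) → W S n F ≤ W S n F' := by
  induction n with
  | zero => intro F F' h; exact h 1
  | succ n ih =>
    intro F F' h
    rw [W_succ, W_succ]
    exact Finset.sum_le_sum fun s _ => ih _ _ fun γ => h _

lemma W_sum {α : Type} (S : Finset Γ) (n : ℕ) (t : Finset α) : ∀ (F : α → Γ → ℝ),
    W S n (fun γ => ∑ i ∈ t, F i γ) = ∑ i ∈ t, W S n (F i) := by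
  induction n with
  | zero => intro F; rfl
  | succ n ih =>
    intro F
    rw [W_succ]
    simp only [W_succ]
    rw [Finset.sum_comm]
    exact Finset.sum_congr rfl fun s _ => ih (fun i γ => F i (γ * s))

lemma W_mul_left (S : Finset Γ) (n : ℕ) (c : ℝ) : ∀ (F : Γ → ℝ),
    W S n (fun γ => c * F γ) = c * W S n F := by
  induction n with
  | zero => intro F; rfl
  | succ n ih =>
    intro F
    rw [W_succ, W_succ, Finset.mul_sum]
    exact Finset.sum_congr rfl fun s _ => ih _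

lemma W_mul_right (S : Finset Γ) (n : ℕ) (c : ℝ) (F : Γ → ℝ) :
    W S n (fun γ => F γ * c) = W S n F * c := by
  rw [mul_comm, ← W_mul_left]
  simp only [mul_comm]

lemma W_add (S : Finset Γ) (n m : ℕ) : ∀ (F : Γ → ℝ),
    W S (n + m) F = W S n (fun γ => W S m (fun δ => F (γ * δ))) := by
  induction m with
  | zero => intro F; simp [W_zero]
  | succ m ih =>
    intro F
    rw [← add_assoc, W_succ]
    simp only [W_succ]
    rw [W_sum]
    refine Finset.sum_congr rfl fun s _ => ?_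
    rw [ih]
    simp only [mul_assoc]

lemma W_succ' (S : Finset Γ) (n : ℕ) (F : Γ → ℝ) :
    W S (n + 1) F = ∑ s ∈ S, W S n (fun γ => F (s * γ)) := by
  rw [add_comm, W_add, W_succ]
  simp [W_zero]

lemma W_inv (S : Finset Γ) (hS : ∀ s ∈ S, s⁻¹ ∈ S) (n : ℕ) : ∀ (F : Γ → ℝ),
    W S n (fun γ => F γ⁻¹) = W S n F := by
  induction n with
  | zero => intro F; simp [W_zero]
  | succ n ih =>
    intro F
    rw [W_succ, W_succ']
    simp only [mul_inv_rev]
    have h1 : ∀ s ∈ S, W S n (fun γ => F (s⁻¹ * γ⁻¹)) = W S n (fun γ => F (s⁻¹ * γ)) :=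
      fun s _ => ih (fun γ => F (s⁻¹ * γ))
    rw [Finset.sum_congr rfl h1]
    refine Finset.sum_bij (fun s _ => s⁻¹) (fun s hs => hS s hs) (fun a _ b _ h => inv_injective h)
      (fun b hb => ⟨b⁻¹, hS b hb, inv_inv b⟩) (fun s _ => rfl)

variable {G V : Type} [Group G] [Fintype G] [Fintype V] [MulAction G V]

/-- matrix coefficient -/
def mc (f : V → ℝ) (g : G) : ℝ := ∑ x, f (g • x) * f x

lemma mc_one (f : V → ℝ) : mc (G := G) f 1 = ∑ x, f x ^ 2 := by
  unfold mc
  simp [sq]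

lemma W_inner (S : Finset Γ) (hS : ∀ s ∈ S, s⁻¹ ∈ S) (π : Γ →* G) (f : V → ℝ) (n m : ℕ) :
    ∑ x, W S n (fun γ => f (π γ • x)) * W S m (fun γ => f (π γ • x)) =
      W S (n + m) (fun γ => mc f (π γ)) := by
  have h1 : ∀ x, W S n (fun γ => f (π γ • x)) * W S m (fun γ => f (π γ • x)) =
      W S n (fun γ => W S m (fun δ => f (π γ • x) * f (π δ • x))) := by
    intro x
    rw [← W_mul_right]
    simp only [W_mul_left]
  simp only [h1]
  rw [← W_sum]
  rw [W_add]
  have h2 : ∀ γ, ∑ x, W S m (fun δ => f (π γ • x) * f (π δ • x)) =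
      W S m (fun δ => mc f (π (γ * δ))) := by
    intro γ
    rw [← W_sum, ← W_inv S hS m (fun δ => mc f (π (γ * δ)))]
    congr 1
    funext δ
    unfold mc
    refine Fintype.sum_equiv (MulAction.toPerm (π δ)) _ _ fun x => ?_
    simp [mul_smul]
  simp only [h2]

/-- Iterated Cauchy-Schwarz. -/
lemma W_power (S : Finset Γ) (hS : ∀ s ∈ S, s⁻¹ ∈ S) (π : Γ →* G) (f : V → ℝ) (c : ℝ) (hc : 0 ≤ c)
    (h0 : 0 < ∑ x, f x ^ 2)
    (h1 : c * ∑ x, f x ^ 2 ≤ W S 1 (fun γ => mc f (π γ))) (j : ℕ) :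
    c ^ (2 ^ j) * ∑ x, f x ^ 2 ≤ W S (2 ^ j) (fun γ => mc f (π γ)) := by
  induction j with
  | zero => simpa using h1
  | succ j ih =>
    set B := ∑ x, f x ^ 2 with hB
    set b := W S (2 ^ j) (fun γ => mc f (π γ)) with hb
    have e1 : ∑ x, W S (2 ^ j) (fun γ => f (π γ • x)) * W S 0 (fun γ => f (π γ • x)) = b := by
      rw [W_inner S hS π f (2 ^ j) 0]; rfl
    have e2 : ∑ x, W S (2 ^ j) (fun γ => f (π γ • x)) * W S (2 ^ j) (fun γ => f (π γ • x)) =
        W S (2 ^ (j + 1)) (fun γ => mc f (π γ)) := by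
      rw [W_inner S hS π f (2 ^ j) (2 ^ j)]
      congr 1
      ring
    have e3 : ∑ x, (W S 0 (fun γ => f (π γ • x))) ^ 2 = B := by
      simp [W_zero, hB]
    have cs := Finset.sum_mul_sq_le_sq_mul_sq Finset.univ
      (fun x => W S (2 ^ j) (fun γ => f (π γ • x))) (fun x => W S 0 (fun γ => f (π γ • x)))
    rw [e1, e3] at cs
    have e4 : ∑ x, (W S (2 ^ j) (fun γ => f (π γ • x))) ^ 2 = W S (2 ^ (j + 1)) (fun γ => mc f (π γ)) := by
      rw [← e2]
      exact Finset.sum_congr rfl fun x _ => by ring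
    rw [e4] at cs
    have h2 : (c ^ (2 ^ j) * B) ^ 2 ≤ b ^ 2 := by
      apply pow_le_pow_left₀ _ ih
      positivity
    have h3 : c ^ (2 ^ (j + 1)) * B * B ≤ W S (2 ^ (j + 1)) (fun γ => mc f (π γ)) * B := by
      calc c ^ (2 ^ (j + 1)) * B * B = (c ^ (2 ^ j) * B) ^ 2 := by
            rw [pow_succ 2 j, pow_mul]; ring
        _ ≤ b ^ 2 := h2
        _ ≤ _ := cs
    exact le_of_mul_le_mul_right h3 h0

variable [DecidableEq G]

/-- Cauchy-Schwarz over the finite quotient. -/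
lemma W_quot (S : Finset Γ) (hS : ∀ s ∈ S, s⁻¹ ∈ S) (π : Γ →* G) (ψ : G → ℝ) (m : ℕ) :
    (W S m (fun γ => ψ (π γ))) ^ 2 ≤
      W S (m + m) (fun γ => if π γ = 1 then 1 else 0) * ∑ g, ψ g ^ 2 := by
  have e1 : W S m (fun γ => ψ (π γ)) = ∑ g, W S m (fun γ => if π γ = g then 1 else 0) * ψ g := by
    simp only [← W_mul_right]
    rw [← W_sum]
    congr 1
    funext γ
    rw [Finset.sum_eq_single (π γ)]
    · simp
    · intro g _ hg
      rw [if_neg (Ne.symm hg), zero_mul]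
    · intro h; exact absurd (Finset.mem_univ _) h
  have e2 : ∑ g, (W S m (fun γ => if π γ = g then 1 else 0)) ^ 2 =
      W S (m + m) (fun γ => if π γ = 1 then 1 else 0) := by
    rw [W_add]
    have : ∀ g, (W S m (fun γ => if π γ = g then (1 : ℝ) else 0)) ^ 2 =
        W S m (fun γ => W S m (fun δ => (if π γ = g then 1 else 0) * (if π δ = g then 1 else 0))) := by
      intro g
      rw [sq, ← W_mul_right]
      simp only [W_mul_left]
    simp only [this]
    rw [← W_sum]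
    congr 1
    funext γ
    rw [← W_sum, ← W_inv S hS m (fun δ => if π (γ * δ) = 1 then (1 : ℝ) else 0)]
    congr 1
    funext δ
    rw [Finset.sum_eq_single (π γ)]
    · simp only [if_true, one_mul, map_mul, map_inv, mul_inv_eq_one]
      by_cases h : π δ = π γ
      · simp [h]
      · rw [if_neg h, if_neg (Ne.symm h)]
    · intro g _ hg
      rw [if_neg (Ne.symm hg), zero_mul]
    · intro h; exact absurd (Finset.mem_univ _) h
  rw [e1, ← e2]
  exact Finset.sum_mul_sq_le_sq_mul_sq _ _ _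

end Words

end Pool.Agent.Lib.MP_a22f36
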