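import Mathlib
import Pool.Agent.Lib.MP_a22f36.Words

set_option autoImplicit false
set_option linter.unusedSectionVars false

/-!
# Norms on `SL(2, ℤ)` and a finite symmetric set
-/

namespace Pool.Agent.Lib.MP_a22f36

open Matrix

/-- `SL(2, ℤ)` -/
abbrev Gam : Type := Matrix.SpecialLinearGroup (Fin 2) ℤ

/-- Maximum norm. -/
def nm (g : Gam) : ℤ := max (max |g.1 0 0| |g.1 0 1|) (max |g.1 1 0| |g.1 1 1|)

lemma entry_le (g : Gam) (i j : Fin 2) : |g.1 i j| ≤ nm g := by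
  unfold nm
  fin_cases i <;> fin_cases j <;> simp

lemma nm_le {g : Gam} {Y : ℤ} (h : ∀ i j, |g.1 i j| ≤ Y) : nm g ≤ Y := by
  unfold nm
  exact max_le (max_le (h 0 0) (h 0 1)) (max_le (h 1 0) (h 1 1))

lemma det_eq (g : Gam) : g.1 0 0 * g.1 1 1 - g.1 0 1 * g.1 1 0 = 1 := by
  have := g.2
  rwa [Matrix.det_fin_two] at this

lemma nm_pos (g : Gam) : 1 ≤ nm g := by
  by_contra h
  have h0 : nm g ≤ 0 := by omega
  have h1 : ∀ i j, g.1 i j = 0 := fun i j => by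
    have := (entry_le g i j).trans h0
    exact abs_eq_zero.mp (le_antisymm this (abs_nonneg _))
  have := det_eq g
  rw [h1 0 0, h1 0 1] at this
  simp at this

lemma nm_one : nm 1 = 1 := by
  unfold nm
  simp

lemma nm_mul (g h : Gam) : nm (g * h) ≤ 2 * nm g * nm h := by
  apply nm_le
  intro i j
  have e : (g * h).1 i j = g.1 i 0 * h.1 0 j + g.1 i 1 * h.1 1 j := by
    rw [Matrix.SpecialLinearGroup.coe_mul, Matrix.mul_apply, Fin.sum_univ_two]
  rw [e]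
  calc |g.1 i 0 * h.1 0 j + g.1 i 1 * h.1 1 j| ≤ |g.1 i 0 * h.1 0 j| + |g.1 i 1 * h.1 1 j| :=
        abs_add_le _ _
    _ ≤ nm g * nm h + nm g * nm h := by
        rw [abs_mul, abs_mul]
        have p := nm_pos g
        exact add_le_add
          (mul_le_mul (entry_le _ _ _) (entry_le _ _ _) (abs_nonneg _) (by omega))
          (mul_le_mul (entry_le _ _ _) (entry_le _ _ _) (abs_nonneg _) (by omega))
    _ = _ := by ring

lemma inv_entries (g : Gam) : (g⁻¹).1 0 0 = g.1 1 1 ∧ (g⁻¹).1 0 1 = - g.1 0 1 ∧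
    (g⁻¹).1 1 0 = - g.1 1 0 ∧ (g⁻¹).1 1 1 = g.1 0 0 := by
  rw [Matrix.SpecialLinearGroup.coe_inv, Matrix.adjugate_fin_two]
  simp

lemma nm_inv_le (g : Gam) : nm g⁻¹ ≤ nm g := by
  obtain ⟨h1, h2, h3, h4⟩ := inv_entries g
  apply nm_le
  intro i j
  fin_cases i <;> fin_cases j
  · change |(g⁻¹).1 0 0| ≤ _
    rw [h1]; exact entry_le g 1 1
  · change |(g⁻¹).1 0 1| ≤ _
    rw [h2, abs_neg]; exact entry_le g 0 1
  · change |(g⁻¹).1 1 0| ≤ _
    rw [h3, abs_neg]; exact entry_le g 1 0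
  · change |(g⁻¹).1 1 1| ≤ _
    rw [h4]; exact entry_le g 0 0

lemma nm_inv (g : Gam) : nm g⁻¹ = nm g := by
  refine le_antisymm (nm_inv_le g) ?_
  have := nm_inv_le g⁻¹
  rwa [inv_inv] at this

lemma nm_le_of_mul (g s : Gam) : nm g ≤ 2 * nm (g * s) * nm s := by
  have := nm_mul (g * s) s⁻¹
  rwa [mul_inv_cancel_right, nm_inv] at this

lemma gam_ext {g h : Gam} (h00 : g.1 0 0 = h.1 0 0) (h01 : g.1 0 1 = h.1 0 1)
    (h10 : g.1 1 0 = h.1 1 0) (h11 : g.1 1 1 = h.1 1 1) : g = h := by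
  apply Subtype.ext
  ext i j
  fin_cases i <;> fin_cases j <;> assumption

lemma ball_finite (Y : ℤ) : {g : Gam | nm g ≤ Y}.Finite := by
  let e : Gam → ℤ × ℤ × ℤ × ℤ := fun g => (g.1 0 0, g.1 0 1, g.1 1 0, g.1 1 1)
  have he : Function.Injective e := by
    intro g h hgh
    simp only [e, Prod.mk.injEq] at hgh
    exact gam_ext hgh.1 hgh.2.1 hgh.2.2.1 hgh.2.2.2
  have hfin : (Set.Icc (-Y) Y ×ˢ (Set.Icc (-Y) Y ×ˢ (Set.Icc (-Y) Y ×ˢ Set.Icc (-Y) Y)) :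
      Set (ℤ × ℤ × ℤ × ℤ)).Finite :=
    (Set.finite_Icc _ _).prod ((Set.finite_Icc _ _).prod ((Set.finite_Icc _ _).prod
      (Set.finite_Icc _ _)))
  refine (hfin.preimage he.injOn).subset ?_
  intro g hg
  have : ∀ i j, g.1 i j ∈ Set.Icc (-Y) Y := fun i j => abs_le.mp ((entry_le g i j).trans hg)
  exact ⟨this 0 0, this 0 1, this 1 0, this 1 1⟩

/-- Ball of radius `Y`. -/
noncomputable def ball (Y : ℤ) : Finset Gam := (ball_finite Y).toFinset

lemma mem_ball {Y : ℤ} {g : Gam} : g ∈ ball Y ↔ nm g ≤ Y := by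
  unfold ball
  simp

/-- The finite symmetric set. -/
noncomputable def ST (T : ℕ) : Finset Gam :=
  (ball T).filter fun s => (T : ℤ) < 2 * |s.1 1 0| ∧ 0 < s.1 0 0 ∧ s.1 0 0 < |s.1 1 0| ∧
    0 < s.1 1 1 ∧ s.1 1 1 < |s.1 1 0|

lemma mem_ST {T : ℕ} {s : Gam} : s ∈ ST T ↔ nm s ≤ T ∧ (T : ℤ) < 2 * |s.1 1 0| ∧ 0 < s.1 0 0 ∧
    s.1 0 0 < |s.1 1 0| ∧ 0 < s.1 1 1 ∧ s.1 1 1 < |s.1 1 0| := by
  unfold ST
  rw [Finset.mem_filter, mem_ball]

lemma ST_symm (T : ℕ) : ∀ s ∈ ST T, s⁻¹ ∈ ST T := by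
  intro s hs
  rw [mem_ST] at hs ⊢
  obtain ⟨h1, h2, h3, h4⟩ := inv_entries s
  rw [nm_inv, h1, h3, h4, abs_neg]
  tauto

/-- an element of `ST T` is determined by its first column. -/
lemma ST_inj {T : ℕ} {s t : Gam} (hs : s ∈ ST T) (ht : t ∈ ST T) (h0 : s.1 0 0 = t.1 0 0)
    (h1 : s.1 1 0 = t.1 1 0) : s = t := by
  rw [mem_ST] at hs ht
  obtain ⟨_, _, _, _, hs1, hs2⟩ := hs
  obtain ⟨_, _, _, _, ht1, ht2⟩ := ht
  have ds := det_eq s
  have dt := det_eq t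
  rw [← h0, ← h1] at dt
  rw [← h1] at ht2
  set a := s.1 0 0
  set c := s.1 1 0
  have hc : c ≠ 0 := by
    intro h; rw [h] at hs2; simp at hs2; omega
  -- c divides the difference of the lower right entries
  have hcop : IsCoprime a c := ⟨s.1 1 1, - s.1 0 1, by linarith⟩
  have hdvd : c ∣ (s.1 1 1 - t.1 1 1) := by
    have : c ∣ a * (s.1 1 1 - t.1 1 1) := ⟨s.1 0 1 - t.1 0 1, by linarith⟩
    exact hcop.symm.dvd_of_dvd_mul_left this
  have h11 : s.1 1 1 = t.1 1 1 := by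
    have h3 : |s.1 1 1 - t.1 1 1| < |c| := by
      rw [abs_lt]; constructor <;> linarith
    have := Int.eq_zero_of_abs_lt_dvd ((abs_dvd _ _).mpr hdvd) h3
    linarith
  have h01 : s.1 0 1 = t.1 0 1 := by
    rw [← h11] at dt
    have : (s.1 0 1 - t.1 0 1) * c = 0 := by linarith
    rcases mul_eq_zero.mp this with h | h
    · linarith
    · exact absurd h hc
  exact gam_ext h0 h01 h1 h11

lemma ST_card_le (T : ℕ) : ((ST T).card : ℝ) ≤ 3 * (T : ℝ) ^ 2 := by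
  have h : (ST T).card ≤ ((Finset.Icc (1 : ℤ) T) ×ˢ (Finset.Icc (-(T : ℤ)) T)).card := by
    apply Finset.card_le_card_of_injOn (fun s => (s.1 0 0, s.1 1 0))
    · intro s hs
      have hs' := mem_ST.mp hs
      simp only [Finset.coe_product, Finset.coe_Icc, Set.mem_prod, Set.mem_Icc]
      have h1 := (entry_le s 0 0).trans hs'.1
      have h2 := (entry_le s 1 0).trans hs'.1
      rw [abs_le] at h1 h2
      refine ⟨⟨by linarith [hs'.2.2.1], h1.2⟩, h2⟩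
    · intro s hs t ht hst
      simp only [Prod.mk.injEq] at hst
      exact ST_inj hs ht hst.1 hst.2
  rw [Finset.card_product] at h
  simp only [Int.card_Icc] at h
  have e1 : ((T : ℤ) + 1 - 1).toNat = T := by simp
  have e2 : ((T : ℤ) + 1 - -(T : ℤ)).toNat = 2 * T + 1 := by omega
  rw [e1, e2] at h
  have h2 : ((ST T).card : ℝ) ≤ (T : ℝ) * (2 * T + 1) := by exact_mod_cast h
  rcases Nat.eq_zero_or_pos T with hT | hT
  · subst hT; simp at h2 ⊢; exact_mod_cast h2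
  · have : (1 : ℝ) ≤ T := by exact_mod_cast hT
    nlinarith

end Pool.Agent.Lib.MP_a22f36
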