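import Mathlib
import Pool.Agent.Lib.MP_a22f36.SL2

set_option autoImplicit false
set_option linter.unusedSectionVars false

/-!
# The superharmonicity estimate for `1 / ‖g‖`
-/

namespace Pool.Agent.Lib.MP_a22f36

open Matrix

/-- truncated harmonic sum -/
noncomputable def Hs (J : ℕ) : ℝ := ∑ k ∈ Finset.range J, 1 / (max 1 (k : ℝ))

/-- the constant of the estimate -/
noncomputable def KT (T : ℕ) : ℝ := 12 * T * Hs (3 * T ^ 2 + 1)

lemma one_le_Hs (J : ℕ) : 1 ≤ Hs (J + 1) := by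
  unfold Hs
  rw [Finset.sum_range_succ']
  have : 0 ≤ ∑ k ∈ Finset.range J, 1 / (max 1 ((k + 1 : ℕ) : ℝ)) :=
    Finset.sum_nonneg fun k _ => by positivity
  simp only [Nat.cast_zero]
  have h : (max (1 : ℝ) 0) = 1 := by norm_num
  rw [h]
  linarith

lemma mul_entry (g s : Gam) (r j : Fin 2) : (g * s).1 r j = g.1 r 0 * s.1 0 j + g.1 r 1 * s.1 1 j := by
  rw [Matrix.SpecialLinearGroup.coe_mul, Matrix.mul_apply, Fin.sum_univ_two]

lemma exists_max_entry (g : Gam) : ∃ r j, |g.1 r j| = nm g := by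
  unfold nm
  rcases max_choice (max |g.1 0 0| |g.1 0 1|) (max |g.1 1 0| |g.1 1 1|) with h | h
  · rcases max_choice |g.1 0 0| |g.1 0 1| with h' | h'
    · exact ⟨0, 0, by rw [h, h']⟩
    · exact ⟨0, 1, by rw [h, h']⟩
  · rcases max_choice |g.1 1 0| |g.1 1 1| with h' | h'
    · exact ⟨1, 0, by rw [h, h']⟩
    · exact ⟨1, 1, by rw [h, h']⟩

/-- the index -/
noncomputable def idx (u : ℝ) : ℕ := if 0 ≤ ⌊u⌋ then ⌊u⌋.toNat else (-⌊u⌋ - 1).toNat

lemma idx_le (u : ℝ) : (idx u : ℝ) ≤ |u| := by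
  unfold idx
  split_ifs with h
  · have h1 : ((⌊u⌋.toNat : ℤ) : ℝ) = (⌊u⌋ : ℝ) := by
      rw [Int.toNat_of_nonneg h]
    have h2 : ((⌊u⌋.toNat : ℕ) : ℝ) = (⌊u⌋ : ℝ) := by rw [← h1]; exact (Int.cast_natCast _).symm
    rw [h2]
    exact (Int.floor_le u).trans (le_abs_self u)
  · have h0 : 0 ≤ -⌊u⌋ - 1 := by omega
    have h1 : (((-⌊u⌋ - 1).toNat : ℤ) : ℝ) = ((-⌊u⌋ - 1 : ℤ) : ℝ) := by
      rw [Int.toNat_of_nonneg h0]
    have h2 : (((-⌊u⌋ - 1).toNat : ℕ) : ℝ) = ((-⌊u⌋ - 1 : ℤ) : ℝ) := by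
      rw [← h1]; exact (Int.cast_natCast _).symm
    rw [h2]
    push_cast
    have h3 := Int.lt_floor_add_one u
    have h4 := neg_abs_le u
    linarith

lemma floor_eq_of_idx {u v : ℝ} (h : idx u = idx v) (hs : 0 ≤ ⌊u⌋ ↔ 0 ≤ ⌊v⌋) : ⌊u⌋ = ⌊v⌋ := by
  unfold idx at h
  by_cases h1 : 0 ≤ ⌊u⌋
  · have h2 := hs.mp h1
    rw [if_pos h1, if_pos h2] at h
    omega
  · have h2 : ¬ 0 ≤ ⌊v⌋ := fun h3 => h1 (hs.mpr h3)
    rw [if_neg h1, if_neg h2] at h
    omega

lemma ratio_inj {T : ℕ} {s t : Gam} (hs : s ∈ ST T) (ht : t ∈ ST T) (w : ℝ)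
    (h : ⌊(T : ℝ) ^ 2 * ((s.1 0 0 : ℝ) / s.1 1 0 + w)⌋ = ⌊(T : ℝ) ^ 2 * ((t.1 0 0 : ℝ) / t.1 1 0 + w)⌋) :
    s = t := by
  have hs' := mem_ST.mp hs
  have ht' := mem_ST.mp ht
  have h1 := Int.abs_sub_lt_one_of_floor_eq_floor h
  have hcs := (entry_le s 1 0).trans hs'.1
  have hct := (entry_le t 1 0).trans ht'.1
  have dets := det_eq s
  have dett := det_eq t
  set a := s.1 0 0 with ha
  set c := s.1 1 0 with hc
  set a' := t.1 0 0 with ha'
  set c' := t.1 1 0 with hc'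
  obtain ⟨_, _, ha0, hac, _, _⟩ := hs'
  obtain ⟨_, _, ha0', hac', _, _⟩ := ht'
  have hc0 : (c : ℝ) ≠ 0 := by
    intro e
    have : c = 0 := by exact_mod_cast e
    rw [this] at hac; simp at hac; omega
  have hc0' : (c' : ℝ) ≠ 0 := by
    intro e
    have : c' = 0 := by exact_mod_cast e
    rw [this] at hac'; simp at hac'; omega
  have e1 : (T : ℝ) ^ 2 * ((a : ℝ) / c + w) - (T : ℝ) ^ 2 * ((a' : ℝ) / c' + w) =
      (T : ℝ) ^ 2 * (((a * c' - a' * c : ℤ) : ℝ) / (c * c')) := by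
    push_cast
    field_simp
    ring
  rw [e1, abs_mul, abs_div, abs_mul] at h1
  have hcT : |(c : ℝ)| ≤ T := by exact_mod_cast hcs
  have hcT' : |(c' : ℝ)| ≤ T := by exact_mod_cast hct
  have hc1 : 0 < |(c : ℝ)| := abs_pos.mpr hc0
  have hc1' : 0 < |(c' : ℝ)| := abs_pos.mpr hc0'
  have hle : |(c : ℝ)| * |(c' : ℝ)| ≤ (T : ℝ) ^ 2 := by
    rw [sq]; exact mul_le_mul hcT hcT' hc1'.le (hc1.le.trans hcT)
  have hz : |((a * c' - a' * c : ℤ) : ℝ)| < 1 := by
    by_contra hge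
    push Not at hge
    have hT0 : |(T : ℝ) ^ 2| = (T : ℝ) ^ 2 := abs_of_nonneg (by positivity)
    rw [hT0] at h1
    have h2 : 1 / (|(c : ℝ)| * |(c' : ℝ)|) ≤ |((a * c' - a' * c : ℤ) : ℝ)| / (|(c : ℝ)| * |(c' : ℝ)|) :=
      div_le_div_of_nonneg_right hge (by positivity)
    have h3 : (T : ℝ) ^ 2 * (1 / (|(c : ℝ)| * |(c' : ℝ)|)) < 1 :=
      lt_of_le_of_lt (mul_le_mul_of_nonneg_left h2 (by positivity)) h1
    rw [mul_one_div, div_lt_one (by positivity)] at h3
    linarith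
  have hz' : a * c' - a' * c = 0 := by
    have : |a * c' - a' * c| < 1 := by exact_mod_cast hz
    exact Int.abs_lt_one_iff.mp this
  have hcop : IsCoprime a c := ⟨s.1 1 1, - s.1 0 1, by linarith⟩
  have hcop' : IsCoprime a' c' := ⟨t.1 1 1, - t.1 0 1, by linarith⟩
  have d1 : a ∣ a' := hcop.dvd_of_dvd_mul_right (⟨c', by linarith⟩ : a ∣ a' * c)
  have d2 : a' ∣ a := hcop'.dvd_of_dvd_mul_right (⟨c, by linarith⟩ : a' ∣ a * c')
  have haa : a = a' := le_antisymm (Int.le_of_dvd ha0' d1) (Int.le_of_dvd ha0 d2)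
  have hcc : c = c' := by
    rw [← haa] at hz'
    have : a * (c' - c) = 0 := by linarith
    rcases mul_eq_zero.mp this with h | h
    · omega
    · linarith
  exact ST_inj hs ht haa hcc

theorem lemL (T : ℕ) (hT : 1 ≤ T) (g : Gam) :
    ∑ s ∈ ST T, 1 / (nm (g * s) : ℝ) ≤ KT T / nm g := by
  classical
  have hTr : (1 : ℝ) ≤ T := by exact_mod_cast hT
  obtain ⟨r, j0, hr⟩ := exists_max_entry g
  set R : ℝ := (nm g : ℝ) with hR
  have hRpos : 1 ≤ R := by rw [hR]; exact_mod_cast nm_pos g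
  set x : ℤ := g.1 r 0 with hx
  set y : ℤ := g.1 r 1 with hy
  have hxR : |(x : ℝ)| ≤ R := by rw [hR]; exact_mod_cast entry_le g r 0
  have hyR : |(y : ℝ)| ≤ R := by rw [hR]; exact_mod_cast entry_le g r 1
  have hor : |(x : ℝ)| = R ∨ |(y : ℝ)| = R := by
    fin_cases j0
    · left; rw [hR]; exact_mod_cast hr
    · right; rw [hR]; exact_mod_cast hr
  have hlow : ∀ s ∈ ST T, |(x : ℝ) * s.1 0 0 + y * s.1 1 0| ≤ (nm (g * s) : ℝ) := by
    intro s _
    have h1 := entry_le (g * s) r 0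
    rw [mul_entry] at h1
    exact_mod_cast h1
  have hpos : ∀ s : Gam, (1 : ℝ) ≤ (nm (g * s) : ℝ) := fun s => by exact_mod_cast nm_pos (g * s)
  have hH := one_le_Hs (3 * T ^ 2)
  by_cases hcase : 2 * |(x : ℝ)| < R
  · -- the second entry dominates
    have hyR' : |(y : ℝ)| = R := by
      rcases hor with h | h
      · rw [h] at hcase; linarith
      · exact h
    have hterm : ∀ s ∈ ST T, 1 / (nm (g * s) : ℝ) ≤ 4 / (R * T) := by
      intro s hs
      have hs' := mem_ST.mp hs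
      have hc : (T : ℝ) < 2 * |(s.1 1 0 : ℝ)| := by exact_mod_cast hs'.2.1
      have ha0 : (0 : ℝ) < (s.1 0 0 : ℝ) := by exact_mod_cast hs'.2.2.1
      have hac : (s.1 0 0 : ℝ) < |(s.1 1 0 : ℝ)| := by exact_mod_cast hs'.2.2.2.1
      have h1 := hlow s hs
      have h2 : |(y : ℝ) * s.1 1 0| - |(x : ℝ) * s.1 0 0| ≤ |(x : ℝ) * s.1 0 0 + y * s.1 1 0| := by
        have := abs_sub_abs_le_abs_sub ((y : ℝ) * s.1 1 0) (-((x : ℝ) * s.1 0 0))
        rw [abs_neg] at this
        calc _ ≤ _ := this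
          _ = _ := by congr 1; ring
      rw [abs_mul, abs_mul, hyR', abs_of_pos ha0] at h2
      have h3 : |(x : ℝ)| * (s.1 0 0 : ℝ) ≤ (R / 2) * |(s.1 1 0 : ℝ)| :=
        mul_le_mul (by linarith) hac.le ha0.le (by linarith)
      have h4 : R * T / 4 ≤ (nm (g * s) : ℝ) := by
        have : R * T / 4 ≤ (R / 2) * |(s.1 1 0 : ℝ)| := by nlinarith
        linarith
      rw [div_le_div_iff₀ (by linarith [hpos s]) (by positivity)]
      linarith
    calc ∑ s ∈ ST T, 1 / (nm (g * s) : ℝ) ≤ ∑ s ∈ ST T, 4 / (R * T) := Finset.sum_le_sum hterm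
      _ = (ST T).card * (4 / (R * T)) := by rw [Finset.sum_const, nsmul_eq_mul]
      _ ≤ (3 * (T : ℝ) ^ 2) * (4 / (R * T)) :=
          mul_le_mul_of_nonneg_right (ST_card_le T) (by positivity)
      _ = 12 * T / R := by field_simp; ring
      _ ≤ KT T / R := by
          apply div_le_div_of_nonneg_right _ (by linarith)
          unfold KT
          nlinarith
  · push Not at hcase
    have hx0 : (x : ℝ) ≠ 0 := by
      intro h; rw [h] at hcase; simp at hcase; linarith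
    have hxpos : 0 < |(x : ℝ)| := abs_pos.mpr hx0
    set u : Gam → ℝ := fun s => (T : ℝ) ^ 2 * ((s.1 0 0 : ℝ) / s.1 1 0 + y / x) with hu
    have hub : ∀ s ∈ ST T, |u s| ≤ 3 * (T : ℝ) ^ 2 := by
      intro s hs
      have hs' := mem_ST.mp hs
      have ha0 : (0 : ℝ) < (s.1 0 0 : ℝ) := by exact_mod_cast hs'.2.2.1
      have hac : (s.1 0 0 : ℝ) < |(s.1 1 0 : ℝ)| := by exact_mod_cast hs'.2.2.2.1
      simp only [hu]
      rw [abs_mul, abs_of_nonneg (by positivity : (0 : ℝ) ≤ (T : ℝ) ^ 2)]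
      have h1 : |(s.1 0 0 : ℝ) / s.1 1 0| ≤ 1 := by
        rw [abs_div, div_le_one (by linarith), abs_of_pos ha0]; exact hac.le
      have h2 : |(y : ℝ) / x| ≤ 2 := by
        rw [abs_div, div_le_iff₀ hxpos]; linarith
      have h3 := abs_add_le ((s.1 0 0 : ℝ) / s.1 1 0) ((y : ℝ) / x)
      have h4 : (0 : ℝ) ≤ (T : ℝ) ^ 2 := by positivity
      nlinarith
    have hmaps : ∀ s ∈ ST T, idx (u s) ∈ Finset.range (3 * T ^ 2 + 1) := by
      intro s hs
      rw [Finset.mem_range]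
      have h1 := (idx_le (u s)).trans (hub s hs)
      have h2 : idx (u s) ≤ 3 * T ^ 2 := by exact_mod_cast h1
      omega
    have hterm : ∀ s ∈ ST T, 1 / (nm (g * s) : ℝ) ≤ (4 * T / R) * (1 / max 1 (idx (u s) : ℝ)) := by
      intro s hs
      have hs' := mem_ST.mp hs
      have hc : (T : ℝ) < 2 * |(s.1 1 0 : ℝ)| := by exact_mod_cast hs'.2.1
      have hcpos : 0 < |(s.1 1 0 : ℝ)| := by linarith
      have hc0 : (s.1 1 0 : ℝ) ≠ 0 := abs_pos.mp hcpos
      have h1 := hlow s hs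
      have e1 : (x : ℝ) * s.1 0 0 + y * s.1 1 0 = x * s.1 1 0 * (u s / (T : ℝ) ^ 2) := by
        simp only [hu]
        field_simp
      rw [e1, abs_mul, abs_mul, abs_div, abs_of_pos (by positivity : (0 : ℝ) < (T : ℝ) ^ 2)] at h1
      have h2 : R * (idx (u s) : ℝ) / (4 * T) ≤ (nm (g * s) : ℝ) := by
        have h3 : (R / 2) * (T / 2) ≤ |(x : ℝ)| * |(s.1 1 0 : ℝ)| :=
          mul_le_mul (by linarith) (by linarith) (by positivity) (by linarith)
        have h4 : (idx (u s) : ℝ) / (T : ℝ) ^ 2 ≤ |u s| / (T : ℝ) ^ 2 :=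
          div_le_div_of_nonneg_right (idx_le _) (by positivity)
        have h5 : (R / 2) * (T / 2) * ((idx (u s) : ℝ) / (T : ℝ) ^ 2) ≤
            |(x : ℝ)| * |(s.1 1 0 : ℝ)| * (|u s| / (T : ℝ) ^ 2) :=
          mul_le_mul h3 h4 (by positivity) (by positivity)
        have h6 : (R / 2) * (T / 2) * ((idx (u s) : ℝ) / (T : ℝ) ^ 2) = R * (idx (u s) : ℝ) / (4 * T) := by
          field_simp
          ring
        linarith
      have h7 : R / (4 * T) ≤ (nm (g * s) : ℝ) := by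
        have h8 := nm_le_of_mul g s
        have h9 : R ≤ 2 * (nm (g * s) : ℝ) * (nm s : ℝ) := by rw [hR]; exact_mod_cast h8
        have h10 : (nm s : ℝ) ≤ T := by exact_mod_cast hs'.1
        rw [div_le_iff₀ (by positivity)]
        have h11 : 2 * (nm (g * s) : ℝ) * (nm s : ℝ) ≤ 2 * (nm (g * s) : ℝ) * T :=
          mul_le_mul_of_nonneg_left h10 (by linarith [hpos s])
        nlinarith [hpos s]
      have h12 : (R / (4 * T)) * max 1 (idx (u s) : ℝ) ≤ (nm (g * s) : ℝ) := by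
        rcases max_choice (1 : ℝ) (idx (u s) : ℝ) with h | h
        · rw [h, mul_one]; exact h7
        · rw [h]
          calc R / (4 * T) * (idx (u s) : ℝ) = R * (idx (u s) : ℝ) / (4 * T) := by ring
            _ ≤ _ := h2
      have hM : (0 : ℝ) < max 1 (idx (u s) : ℝ) := by positivity
      calc 1 / (nm (g * s) : ℝ) ≤ 1 / ((R / (4 * T)) * max 1 (idx (u s) : ℝ)) :=
            one_div_le_one_div_of_le (by positivity) h12
        _ = _ := by field_simp
    have hfib : ∀ k ∈ Finset.range (3 * T ^ 2 + 1),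
        ((ST T).filter fun s => idx (u s) = k).card ≤ 2 := by
      intro k _
      have : ((ST T).filter fun s => idx (u s) = k).card ≤ (Finset.univ : Finset Bool).card := by
        apply Finset.card_le_card_of_injOn (fun s => decide (0 ≤ ⌊u s⌋))
        · intro s _; exact Finset.mem_coe.mpr (Finset.mem_univ _)
        · intro s hs t ht hst
          simp only [Finset.coe_filter, Set.mem_ofPred_eq] at hs ht
          simp only [decide_eq_decide] at hst
          have hfl := floor_eq_of_idx (hs.2.trans ht.2.symm) hst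
          exact ratio_inj hs.1 ht.1 _ hfl
      simpa using this
    calc ∑ s ∈ ST T, 1 / (nm (g * s) : ℝ)
        ≤ ∑ s ∈ ST T, (4 * T / R) * (1 / max 1 (idx (u s) : ℝ)) := Finset.sum_le_sum hterm
      _ = (4 * T / R) * ∑ k ∈ Finset.range (3 * T ^ 2 + 1),
            ∑ s ∈ (ST T).filter (fun s => idx (u s) = k), (1 / max 1 (idx (u s) : ℝ)) := by
          rw [← Finset.mul_sum, Finset.sum_fiberwise_of_maps_to hmaps]
      _ ≤ (4 * T / R) * ∑ k ∈ Finset.range (3 * T ^ 2 + 1), 2 * (1 / max 1 (k : ℝ)) := by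
          apply mul_le_mul_of_nonneg_left _ (by positivity)
          apply Finset.sum_le_sum
          intro k hk
          have : ∑ s ∈ (ST T).filter (fun s => idx (u s) = k), (1 / max 1 (idx (u s) : ℝ)) =
              ((ST T).filter fun s => idx (u s) = k).card * (1 / max 1 (k : ℝ)) := by
            rw [← nsmul_eq_mul, ← Finset.sum_const]
            refine Finset.sum_congr rfl fun s hs => ?_
            rw [(Finset.mem_filter.mp hs).2]
          rw [this]
          apply mul_le_mul_of_nonneg_right _ (by positivity)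
          exact_mod_cast hfib k hk
      _ = 8 * T * Hs (3 * T ^ 2 + 1) / R := by
          rw [← Finset.mul_sum]
          unfold Hs
          ring
      _ ≤ KT T / R := by
          apply div_le_div_of_nonneg_right _ (by linarith)
          unfold KT
          nlinarith

end Pool.Agent.Lib.MP_a22f36
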