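import Mathlib
import Pool.Agent.Lib.MP_a22f36.LemL

set_option autoImplicit false
set_option linter.unusedSectionVars false

/-!
# Bounds for the number of words with a given product
-/

namespace Pool.Agent.Lib.MP_a22f36

open Matrix

lemma KT_nonneg (T : ℕ) : 0 ≤ KT T := by
  unfold KT
  have := one_le_Hs (3 * T ^ 2)
  positivity

lemma nm_pos_real (g : Gam) : (0 : ℝ) < (nm g : ℝ) := by
  have : (1 : ℝ) ≤ (nm g : ℝ) := by exact_mod_cast nm_pos g
  linarith

lemma W_point (T : ℕ) (hT : 1 ≤ T) (n : ℕ) : ∀ κ : Gam,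
    W (ST T) n (fun γ => if γ = κ then 1 else 0) ≤ KT T ^ n / nm κ := by
  induction n with
  | zero =>
    intro κ
    rw [W_zero]
    split_ifs with h
    · rw [← h, nm_one]; simp
    · have := nm_pos_real κ
      positivity
  | succ n ih =>
    intro κ
    rw [W_succ]
    have h1 : ∀ s ∈ ST T, W (ST T) n (fun γ => if γ * s = κ then (1 : ℝ) else 0) ≤
        KT T ^ n * (1 / nm (κ * s⁻¹)) := by
      intro s _
      have := ih (κ * s⁻¹)
      simp only [eq_mul_inv_iff_mul_eq] at this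
      rw [mul_one_div]
      exact this
    have h2 : ∑ s ∈ ST T, (1 / (nm (κ * s⁻¹) : ℝ)) = ∑ s ∈ ST T, (1 / (nm (κ * s) : ℝ)) := by
      refine Finset.sum_bij (fun s _ => s⁻¹) (fun s hs => ST_symm T s hs)
        (fun a _ b _ h => inv_injective h)
        (fun b hb => ⟨b⁻¹, ST_symm T b hb, inv_inv b⟩) (fun s _ => rfl)
    calc _ ≤ ∑ s ∈ ST T, KT T ^ n * (1 / (nm (κ * s⁻¹) : ℝ)) := Finset.sum_le_sum h1
      _ = KT T ^ n * ∑ s ∈ ST T, (1 / (nm (κ * s) : ℝ)) := by rw [← Finset.mul_sum, h2]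
      _ ≤ KT T ^ n * (KT T / nm κ) :=
          mul_le_mul_of_nonneg_left (lemL T hT κ) (pow_nonneg (KT_nonneg T) n)
      _ = _ := by rw [pow_succ]; ring

lemma W_ball (T : ℕ) (n : ℕ) : ∀ (F F' : Gam → ℝ),
    (∀ γ, nm γ ≤ (2 * T : ℤ) ^ n → F γ ≤ F' γ) → W (ST T) n F ≤ W (ST T) n F' := by
  induction n with
  | zero =>
    intro F F' h
    exact h 1 (by rw [nm_one]; simp)
  | succ n ih =>
    intro F F' h
    rw [W_succ, W_succ]
    apply Finset.sum_le_sum
    intro s hs
    apply ih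
    intro γ hγ
    apply h
    have h1 := nm_mul γ s
    have h2 := (mem_ST.mp hs).1
    have h3 := nm_pos γ
    have h4 := nm_pos s
    calc nm (γ * s) ≤ 2 * nm γ * nm s := h1
      _ ≤ 2 * (2 * T : ℤ) ^ n * T := by
          apply mul_le_mul _ h2 (by omega) (by positivity)
          linarith
      _ = _ := by rw [pow_succ]; ring

lemma W_ker (T : ℕ) (hT : 1 ≤ T) (n : ℕ) (P : Gam → Prop) [DecidablePred P] :
    W (ST T) n (fun γ => if P γ then 1 else 0) ≤
      KT T ^ n * ∑ κ ∈ (ball ((2 * T : ℤ) ^ n)).filter P, 1 / (nm κ : ℝ) := by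
  classical
  have h1 : W (ST T) n (fun γ => if P γ then 1 else 0) ≤
      W (ST T) n (fun γ => ∑ κ ∈ (ball ((2 * T : ℤ) ^ n)).filter P, if γ = κ then (1 : ℝ) else 0) := by
    apply W_ball
    intro γ hγ
    split_ifs with h
    · have hmem : γ ∈ (ball ((2 * T : ℤ) ^ n)).filter P := by
        rw [Finset.mem_filter, mem_ball]; exact ⟨hγ, h⟩
      rw [Finset.sum_ite_eq, if_pos hmem]
    · apply Finset.sum_nonneg
      intro κ _
      split_ifs <;> norm_num
  refine h1.trans ?_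
  rw [W_sum, Finset.mul_sum]
  apply Finset.sum_le_sum
  intro κ _
  rw [mul_one_div]
  exact W_point T hT n κ

end Pool.Agent.Lib.MP_a22f36
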