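import Mathlib
import Pool.Agent.Lib.MP_a22f36.SL2

set_option autoImplicit false
set_option linter.unusedSectionVars false

/-!
# Counting elements of a principal congruence subgroup in a ball
-/

namespace Pool.Agent.Lib.MP_a22f36

open Matrix

/-- congruent to the identity modulo `q` -/
def CK (q : ℕ) (γ : Gam) : Prop :=
  (q : ℤ) ∣ γ.1 0 0 - 1 ∧ (q : ℤ) ∣ γ.1 0 1 ∧ (q : ℤ) ∣ γ.1 1 0 ∧ (q : ℤ) ∣ γ.1 1 1 - 1

lemma eq_one_of_entries {γ : Gam} (h00 : γ.1 0 0 = 1) (h01 : γ.1 0 1 = 0) (h10 : γ.1 1 0 = 0)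
    (h11 : γ.1 1 1 = 1) : γ = 1 := by
  apply gam_ext
  · rw [h00]; simp
  · rw [h01]; simp
  · rw [h10]; simp
  · rw [h11]; simp

lemma small_ker {q : ℕ} {Y : ℤ} (hY : Y + 1 < q) {γ : Gam} (hγ : nm γ ≤ Y) (hc : CK q γ) : γ = 1 := by
  obtain ⟨h1, h2, h3, h4⟩ := hc
  have e00 := abs_le.mp ((entry_le γ 0 0).trans hγ)
  have e01 := abs_le.mp ((entry_le γ 0 1).trans hγ)
  have e10 := abs_le.mp ((entry_le γ 1 0).trans hγ)
  have e11 := abs_le.mp ((entry_le γ 1 1).trans hγ)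
  have p := nm_pos γ
  apply eq_one_of_entries
  · have := Int.eq_zero_of_abs_lt_dvd h1 (by rw [abs_lt]; constructor <;> omega)
    omega
  · exact Int.eq_zero_of_abs_lt_dvd h2 (by rw [abs_lt]; constructor <;> omega)
  · exact Int.eq_zero_of_abs_lt_dvd h3 (by rw [abs_lt]; constructor <;> omega)
  · have := Int.eq_zero_of_abs_lt_dvd h4 (by rw [abs_lt]; constructor <;> omega)
    omega

/-- parametrisation of the diagonal entries -/
lemma param {q : ℕ} (hq : 1 ≤ q) {Y : ℕ} {γ : Gam} (hγ : nm γ ≤ Y) (hc : CK q γ) :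
    ∃ u v : ℤ, γ.1 0 0 = 1 + q * u ∧ γ.1 0 0 + γ.1 1 1 = 2 + q ^ 2 * v ∧
      |u| ≤ ((Y + 1) / q : ℕ) ∧ |v| ≤ ((2 * Y + 2) / q ^ 2 : ℕ) := by
  obtain ⟨⟨u, hu⟩, ⟨b', hb⟩, ⟨c', hc'⟩, ⟨d', hd⟩⟩ := hc
  have hdet := det_eq γ
  have e00 := abs_le.mp ((entry_le γ 0 0).trans hγ)
  have e11 := abs_le.mp ((entry_le γ 1 1).trans hγ)
  have ha : γ.1 0 0 = 1 + q * u := by linarith
  have hd' : γ.1 1 1 = 1 + q * d' := by linarith
  have hq0 : (q : ℤ) ≠ 0 := by positivity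
  have hsum : u + d' = q * (b' * c' - u * d') := by
    rw [ha, hd', hb, hc'] at hdet
    have : (q : ℤ) * (u + d') = q * (q * (b' * c' - u * d')) := by linarith
    exact mul_left_cancel₀ hq0 this
  refine ⟨u, b' * c' - u * d', ha, ?_, ?_, ?_⟩
  · rw [ha, hd']
    have : (q : ℤ) * (u + d') = q * (q * (b' * c' - u * d')) := by rw [hsum]
    linarith
  · have h1 : q * |u| ≤ Y + 1 := by
      have : (q : ℤ) * |u| = |γ.1 0 0 - 1| := by
        rw [ha, ← Nat.abs_cast q, ← abs_mul]; congr 1; simp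
      rw [this, abs_le]; constructor <;> omega
    rw [Int.natCast_div]
    rw [Int.le_ediv_iff_mul_le (by positivity)]
    push_cast
    linarith
  · have h1 : (q : ℤ) ^ 2 * |b' * c' - u * d'| ≤ 2 * Y + 2 := by
      have h2 : (q : ℤ) ^ 2 * |b' * c' - u * d'| = |γ.1 0 0 + γ.1 1 1 - 2| := by
        have h3 : γ.1 0 0 + γ.1 1 1 - 2 = (q : ℤ) ^ 2 * (b' * c' - u * d') := by
          rw [ha, hd']
          have : (q : ℤ) * (u + d') = q * (q * (b' * c' - u * d')) := by rw [hsum]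
          linarith
        rw [h3, abs_mul, abs_of_nonneg (by positivity : (0 : ℤ) ≤ (q : ℤ) ^ 2)]
      rw [h2, abs_le]; constructor <;> omega
    rw [Int.natCast_div]
    rw [Int.le_ediv_iff_mul_le (by positivity)]
    push_cast
    linarith

lemma card_Icc_symm (U : ℕ) : (Finset.Icc (-(U : ℤ)) U).card = 2 * U + 1 := by
  rw [Int.card_Icc]; omega

open Classical in
/-- The kernel elements with `a d ≠ 1`. -/
lemma count_ne {q : ℕ} (hq : 1 ≤ q) (Y B : ℕ)
    (hB : ∀ n, 1 ≤ n → n ≤ Y ^ 2 + 1 → n.divisors.card ≤ B) :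
    ((ball Y).filter fun γ => CK q γ ∧ γ.1 0 0 * γ.1 1 1 ≠ 1).card ≤
      (2 * B) * ((2 * ((Y + 1) / q) + 1) * (2 * ((2 * Y + 2) / q ^ 2) + 1)) := by
  set s := (ball Y).filter fun γ => CK q γ ∧ γ.1 0 0 * γ.1 1 1 ≠ 1 with hs
  let f : Gam → ℤ × ℤ := fun γ => (γ.1 0 0, γ.1 0 0 + γ.1 1 1)
  have hfib : ∀ z ∈ s.image f, (s.filter fun γ => f γ = z).card ≤ 2 * B := by
    intro z hz
    obtain ⟨γ₀, hγ₀, hz₀⟩ := Finset.mem_image.mp hz
    rw [hs, Finset.mem_filter, mem_ball] at hγ₀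
    set n : ℤ := γ₀.1 0 0 * γ₀.1 1 1 - 1 with hn
    have hn0 : n ≠ 0 := by rw [hn]; exact sub_ne_zero.mpr hγ₀.2.2
    have hnY : n.natAbs ≤ Y ^ 2 + 1 := by
      have h0 := (entry_le γ₀ 0 0).trans hγ₀.1
      have h1 := (entry_le γ₀ 1 1).trans hγ₀.1
      have h2 : |n| ≤ (Y : ℤ) ^ 2 + 1 := by
        calc |n| ≤ |γ₀.1 0 0 * γ₀.1 1 1| + |1| := by rw [hn]; exact abs_sub _ _
          _ ≤ (Y : ℤ) ^ 2 + 1 := by
              rw [abs_mul, abs_one, sq]
              have := mul_le_mul h0 h1 (abs_nonneg _) (by positivity)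
              linarith
      have h3 : (n.natAbs : ℤ) ≤ ((Y ^ 2 + 1 : ℕ) : ℤ) := by
        rw [Int.natCast_natAbs]; push_cast; exact h2
      exact_mod_cast h3
    have hn1 : 1 ≤ n.natAbs := Int.natAbs_pos.mpr hn0
    have hle : (s.filter fun γ => f γ = z).card ≤
        (n.natAbs.divisors ×ˢ (Finset.univ : Finset Bool)).card := by
      apply Finset.card_le_card_of_injOn (fun γ => ((γ.1 0 1).natAbs, decide (0 ≤ γ.1 0 1)))
      · intro γ hγ
        simp only [Finset.coe_filter, Set.mem_ofPred_eq] at hγ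
        obtain ⟨hγs, hγz⟩ := hγ
        rw [← hz₀] at hγz
        simp only [f, Prod.mk.injEq] at hγz
        have h11 : γ.1 1 1 = γ₀.1 1 1 := by linarith [hγz.1, hγz.2]
        have hdet := det_eq γ
        rw [hγz.1, h11] at hdet
        have hbc : γ.1 0 1 * γ.1 1 0 = n := by rw [hn]; linarith
        rw [Finset.mem_coe, Finset.mem_product]
        refine ⟨?_, Finset.mem_univ _⟩
        simp only [Nat.mem_divisors]
        refine ⟨?_, by omega⟩
        rw [Int.natAbs_dvd_natAbs]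
        exact ⟨_, hbc.symm⟩
      · intro γ hγ δ hδ h
        simp only [Finset.coe_filter, Set.mem_ofPred_eq] at hγ hδ
        obtain ⟨hγs, hγz⟩ := hγ
        obtain ⟨hδs, hδz⟩ := hδ
        rw [← hz₀] at hγz hδz
        simp only [f, Prod.mk.injEq] at hγz hδz
        simp only [Prod.mk.injEq, decide_eq_decide] at h
        have h11 : γ.1 1 1 = γ₀.1 1 1 := by linarith [hγz.1, hγz.2]
        have h11' : δ.1 1 1 = γ₀.1 1 1 := by linarith [hδz.1, hδz.2]
        have hb : γ.1 0 1 = δ.1 0 1 := by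
          obtain ⟨h1, h2⟩ := h
          omega
        have hdet := det_eq γ
        rw [hγz.1, h11] at hdet
        have hdet' := det_eq δ
        rw [hδz.1, h11', ← hb] at hdet'
        have hb0 : γ.1 0 1 ≠ 0 := by
          intro h0
          rw [h0] at hdet
          apply hn0
          rw [hn]; linarith
        have hc : γ.1 1 0 = δ.1 1 0 := by
          have : γ.1 0 1 * (γ.1 1 0 - δ.1 1 0) = 0 := by linarith
          rcases mul_eq_zero.mp this with h | h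
          · exact absurd h hb0
          · linarith
        exact gam_ext (hγz.1.trans hδz.1.symm) hb hc (h11.trans h11'.symm)
    rw [Finset.card_product, Finset.card_univ, Fintype.card_bool] at hle
    have := hB _ hn1 hnY
    omega
  have h1 := Finset.card_le_mul_card_image s (2 * B) hfib
  refine h1.trans (Nat.mul_le_mul_left _ ?_)
  -- image bound
  have h2 : (s.image f).card ≤ ((Finset.Icc (-(((Y + 1) / q : ℕ) : ℤ)) ((Y + 1) / q : ℕ)) ×ˢ
      (Finset.Icc (-(((2 * Y + 2) / q ^ 2 : ℕ) : ℤ)) ((2 * Y + 2) / q ^ 2 : ℕ))).card := by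
    have hsub : s.image f ⊆ ((Finset.Icc (-(((Y + 1) / q : ℕ) : ℤ)) ((Y + 1) / q : ℕ)) ×ˢ
      (Finset.Icc (-(((2 * Y + 2) / q ^ 2 : ℕ) : ℤ)) ((2 * Y + 2) / q ^ 2 : ℕ))).image
        (fun w : ℤ × ℤ => (1 + (q : ℤ) * w.1, 2 + (q : ℤ) ^ 2 * w.2)) := by
      intro z hz
      obtain ⟨γ, hγ, hz₀⟩ := Finset.mem_image.mp hz
      rw [hs, Finset.mem_filter, mem_ball] at hγ
      obtain ⟨u, v, e1, e2, e3, e4⟩ := param hq hγ.1 hγ.2.1
      rw [Finset.mem_image]
      refine ⟨(u, v), ?_, ?_⟩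
      · rw [Finset.mem_product, Finset.mem_Icc, Finset.mem_Icc]
        exact ⟨abs_le.mp e3, abs_le.mp e4⟩
      · rw [← hz₀]
        simp only [f, ← e1, ← e2]
    exact (Finset.card_le_card hsub).trans Finset.card_image_le
  rw [Finset.card_product, card_Icc_symm, card_Icc_symm] at h2
  exact h2

open Classical in
/-- The kernel elements with `a d = 1`. -/
lemma count_eq {q : ℕ} (hq : 3 ≤ q) (Y : ℕ) :
    ((ball Y).filter fun γ => CK q γ ∧ γ.1 0 0 * γ.1 1 1 = 1).card ≤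
      2 * (2 * ((Y + 1) / q) + 1) := by
  set s := (ball Y).filter fun γ => CK q γ ∧ γ.1 0 0 * γ.1 1 1 = 1 with hs
  have hprop : ∀ γ ∈ s, γ.1 0 0 = 1 ∧ γ.1 1 1 = 1 ∧ (γ.1 0 1 = 0 ∨ γ.1 1 0 = 0) ∧
      ∃ b c : ℤ, γ.1 0 1 = q * b ∧ γ.1 1 0 = q * c ∧ |b| ≤ ((Y + 1) / q : ℕ) ∧
        |c| ≤ ((Y + 1) / q : ℕ) := by
    intro γ hγ
    rw [hs, Finset.mem_filter, mem_ball] at hγ
    obtain ⟨hb, ⟨⟨u, hu⟩, ⟨b, hbq⟩, ⟨c, hcq⟩, _⟩, had⟩ := hγ
    have hdet := det_eq γ
    have hbc : γ.1 0 1 * γ.1 1 0 = 0 := by linarith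
    have ha : γ.1 0 0 = 1 := by
      rcases Int.mul_eq_one_iff_eq_one_or_neg_one.mp had with h | h
      · exact h.1
      · exfalso
        rw [h.1] at hu
        have h1 : (q : ℤ) ∣ 2 := ⟨-u, by linarith⟩
        have := Int.le_of_dvd (by norm_num) h1
        omega
    have hd : γ.1 1 1 = 1 := by rw [ha, one_mul] at had; exact had
    have habs : ∀ (t : ℤ) (i j : Fin 2), γ.1 i j = q * t → |t| ≤ ((Y + 1) / q : ℕ) := by
      intro t i j ht
      have h1 := (entry_le γ i j).trans hb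
      rw [ht, abs_mul, Nat.abs_cast] at h1
      rw [Int.natCast_div, Int.le_ediv_iff_mul_le (by positivity)]
      push_cast
      linarith
    exact ⟨ha, hd, mul_eq_zero.mp hbc, b, c, hbq, hcq, habs b 0 1 hbq, habs c 1 0 hcq⟩
  have h1 : s.card ≤ ((Finset.univ : Finset Bool) ×ˢ
      (Finset.Icc (-(((Y + 1) / q : ℕ) : ℤ)) ((Y + 1) / q : ℕ))).card := by
    apply Finset.card_le_card_of_injOn
      (fun γ : Gam => (decide (γ.1 0 1 = 0), if γ.1 0 1 = 0 then γ.1 1 0 / (q : ℤ) else γ.1 0 1 / (q : ℤ)))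
    · intro γ hγ
      obtain ⟨_, _, _, b, c, hb, hc, hb', hc'⟩ := hprop γ hγ
      have hq0 : (q : ℤ) ≠ 0 := by positivity
      rw [Finset.mem_coe, Finset.mem_product]
      refine ⟨Finset.mem_univ _, ?_⟩
      rw [Finset.mem_Icc]
      simp only
      split_ifs with h
      · rw [hc, Int.mul_ediv_cancel_left _ hq0]
        exact abs_le.mp hc'
      · rw [hb, Int.mul_ediv_cancel_left _ hq0]
        exact abs_le.mp hb'
    · intro γ hγ δ hδ h
      obtain ⟨ha, hd, hor, b, c, hb, hc, _, _⟩ := hprop γ hγ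
      obtain ⟨ha', hd', hor', b', c', hb', hc', _, _⟩ := hprop δ hδ
      have hq0 : (q : ℤ) ≠ 0 := by positivity
      simp only [Prod.mk.injEq, decide_eq_decide] at h
      obtain ⟨h1, h2⟩ := h
      by_cases h0 : γ.1 0 1 = 0
      · have h0' := h1.mp h0
        rw [if_pos h0, if_pos h0', hc, hc', Int.mul_ediv_cancel_left _ hq0,
          Int.mul_ediv_cancel_left _ hq0] at h2
        exact gam_ext (ha.trans ha'.symm) (h0.trans h0'.symm) (by rw [hc, hc', h2])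
          (hd.trans hd'.symm)
      · have h0' : ¬ δ.1 0 1 = 0 := fun h => h0 (h1.mpr h)
        rw [if_neg h0, if_neg h0', hb, hb', Int.mul_ediv_cancel_left _ hq0,
          Int.mul_ediv_cancel_left _ hq0] at h2
        have e1 := hor.resolve_left h0
        have e2 := hor'.resolve_left h0'
        exact gam_ext (ha.trans ha'.symm) (by rw [hb, hb', h2]) (e1.trans e2.symm)
          (hd.trans hd'.symm)
  rw [Finset.card_product, Finset.card_univ, Fintype.card_bool, card_Icc_symm] at h1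
  exact h1

open Classical in
lemma count_all {q : ℕ} (hq : 3 ≤ q) (Y B : ℕ) (hY : 1 ≤ Y) (hB1 : 1 ≤ B)
    (hB : ∀ n, 1 ≤ n → n ≤ Y ^ 2 + 1 → n.divisors.card ≤ B) :
    (((ball Y).filter fun γ => CK q γ ∧ γ ≠ 1).card : ℝ) ≤
      24 * (B * Y / q) * (8 * Y / q ^ 2 + 1) := by
  have hqr : (3 : ℝ) ≤ q := by exact_mod_cast hq
  have hYr : (1 : ℝ) ≤ Y := by exact_mod_cast hY
  have hBr : (1 : ℝ) ≤ B := by exact_mod_cast hB1
  by_cases hsmall : Y + 1 < q
  · have : (ball (Y : ℤ)).filter (fun γ => CK q γ ∧ γ ≠ 1) = ∅ := by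
      rw [Finset.filter_eq_empty_iff]
      intro γ hγ h
      rw [mem_ball] at hγ
      exact h.2 (small_ker (by exact_mod_cast hsmall) hγ h.1)
    rw [this]
    simp only [Finset.card_empty, Nat.cast_zero]
    positivity
  · push Not at hsmall
    have hle : ((ball (Y : ℤ)).filter fun γ => CK q γ ∧ γ ≠ 1).card ≤
        (2 * B) * ((2 * ((Y + 1) / q) + 1) * (2 * ((2 * Y + 2) / q ^ 2) + 1)) +
          2 * (2 * ((Y + 1) / q) + 1) := by
      have hsub : (ball (Y : ℤ)).filter (fun γ => CK q γ ∧ γ ≠ 1) ⊆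
          ((ball (Y : ℤ)).filter fun γ => CK q γ ∧ γ.1 0 0 * γ.1 1 1 ≠ 1) ∪
          ((ball (Y : ℤ)).filter fun γ => CK q γ ∧ γ.1 0 0 * γ.1 1 1 = 1) := by
        intro γ hγ
        rw [Finset.mem_union, Finset.mem_filter, Finset.mem_filter]
        rw [Finset.mem_filter] at hγ
        tauto
      refine (Finset.card_le_card hsub).trans ((Finset.card_union_le _ _).trans ?_)
      exact add_le_add (count_ne (by omega) Y B hB) (count_eq hq Y)
    have hle' : (((ball (Y : ℤ)).filter fun γ => CK q γ ∧ γ ≠ 1).card : ℝ) ≤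
        (2 * B) * ((2 * (((Y + 1) / q : ℕ) : ℝ) + 1) * (2 * (((2 * Y + 2) / q ^ 2 : ℕ) : ℝ) + 1)) +
          2 * (2 * (((Y + 1) / q : ℕ) : ℝ) + 1) := by
      exact_mod_cast hle
    have hqY : (q : ℝ) ≤ Y + 1 := by exact_mod_cast hsmall
    have hU : 2 * (((Y + 1) / q : ℕ) : ℝ) + 1 ≤ 6 * (Y / q) := by
      have h1 : (((Y + 1) / q : ℕ) : ℝ) ≤ ((Y + 1 : ℕ) : ℝ) / q := Nat.cast_div_le
      push_cast at h1
      have h2 : (1 : ℝ) ≤ (Y + 1) / q := by rw [le_div_iff₀ (by linarith)]; linarith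
      have h3 : ((Y : ℝ) + 1) / q ≤ 2 * (Y / q) := by
        rw [← mul_div_assoc]
        apply div_le_div_of_nonneg_right _ (by linarith)
        linarith
      linarith
    have hW : 2 * (((2 * Y + 2) / q ^ 2 : ℕ) : ℝ) + 1 ≤ 8 * Y / q ^ 2 + 1 := by
      have h1 : (((2 * Y + 2) / q ^ 2 : ℕ) : ℝ) ≤ ((2 * Y + 2 : ℕ) : ℝ) / ((q ^ 2 : ℕ) : ℝ) :=
        Nat.cast_div_le
      push_cast at h1
      have h2 : 2 * ((2 * (Y : ℝ) + 2) / q ^ 2) ≤ 8 * Y / q ^ 2 := by
        rw [← mul_div_assoc]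
        apply div_le_div_of_nonneg_right _ (by positivity)
        linarith
      linarith
    set u := 2 * (((Y + 1) / q : ℕ) : ℝ) + 1 with hu
    set w := 2 * (((2 * Y + 2) / q ^ 2 : ℕ) : ℝ) + 1 with hw
    have hu0 : 0 ≤ u := by positivity
    have hw1 : 1 ≤ w := by
      rw [hw]
      have : (0 : ℝ) ≤ (((2 * Y + 2) / q ^ 2 : ℕ) : ℝ) := by positivity
      linarith
    calc (((ball (Y : ℤ)).filter fun γ => CK q γ ∧ γ ≠ 1).card : ℝ) ≤ (2 * B) * (u * w) + 2 * u := hle'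
      _ ≤ (4 * B) * (u * w) := by
          have h1 : u ≤ u * w := le_mul_of_one_le_right hu0 hw1
          have h2 : u * w ≤ B * (u * w) := le_mul_of_one_le_left (by positivity) hBr
          nlinarith
      _ ≤ (4 * B) * ((6 * (Y / q)) * (8 * Y / q ^ 2 + 1)) := by
          apply mul_le_mul_of_nonneg_left _ (by positivity)
          exact mul_le_mul hU hW (by linarith) (by positivity)
      _ = _ := by ring

lemma dyadic (J : ℕ) : ∀ n : ℕ, 1 ≤ n → n ≤ 2 ^ J →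
    (1 : ℝ) / n ≤ 2 * ∑ j ∈ Finset.range (J + 1), (if n ≤ 2 ^ j then (1 : ℝ) / 2 ^ j else 0) := by
  induction J with
  | zero =>
    intro n h1 h2
    have : n = 1 := by omega
    subst this
    simp
  | succ J ih =>
    intro n h1 h2
    rw [Finset.sum_range_succ, if_pos h2]
    by_cases h : n ≤ 2 ^ J
    · have := ih n h1 h
      have h3 : (0 : ℝ) ≤ 1 / 2 ^ (J + 1) := by positivity
      linarith
    · push Not at h
      have h3 : 0 ≤ ∑ j ∈ Finset.range (J + 1), (if n ≤ 2 ^ j then (1 : ℝ) / 2 ^ j else 0) := by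
        apply Finset.sum_nonneg
        intro j _
        split_ifs
        · positivity
        · exact le_rfl
      have h4 : (1 : ℝ) / n ≤ 1 / 2 ^ J := by
        apply one_div_le_one_div_of_le (by positivity)
        exact_mod_cast h.le
      have h5 : (1 : ℝ) / 2 ^ J = 2 * (1 / 2 ^ (J + 1)) := by
        rw [pow_succ]; field_simp
      linarith

open Classical in
theorem ker_sum {q : ℕ} (hq : 3 ≤ q) (J B : ℕ) (hB1 : 1 ≤ B)
    (hB : ∀ n, 1 ≤ n → n ≤ (2 ^ J) ^ 2 + 1 → n.divisors.card ≤ B) :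
    ∑ κ ∈ (ball ((2 : ℤ) ^ J)).filter (CK q), 1 / (nm κ : ℝ) ≤
      1 + 48 * (J + 1) * (B / q) * (8 * 2 ^ J / q ^ 2 + 1) := by
  have hqr : (3 : ℝ) ≤ q := by exact_mod_cast hq
  set s := (ball ((2 : ℤ) ^ J)).filter (fun κ => CK q κ ∧ κ ≠ 1) with hs
  have hsub : (ball ((2 : ℤ) ^ J)).filter (CK q) ⊆ insert 1 s := by
    intro κ hκ
    rw [Finset.mem_filter] at hκ
    by_cases h : κ = 1
    · rw [h]; exact Finset.mem_insert_self _ _
    · rw [Finset.mem_insert]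
      right
      rw [hs, Finset.mem_filter]
      exact ⟨hκ.1, hκ.2, h⟩
  have hnn : ∀ κ : Gam, 0 ≤ 1 / (nm κ : ℝ) := by
    intro κ
    have : (1 : ℝ) ≤ (nm κ : ℝ) := by exact_mod_cast nm_pos κ
    positivity
  have h1 : ∑ κ ∈ (ball ((2 : ℤ) ^ J)).filter (CK q), 1 / (nm κ : ℝ) ≤
      1 + ∑ κ ∈ s, 1 / (nm κ : ℝ) := by
    refine (Finset.sum_le_sum_of_subset_of_nonneg hsub (fun κ _ _ => hnn κ)).trans ?_
    rw [Finset.sum_insert (by rw [hs]; simp), nm_one]
    simp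
  refine h1.trans ?_
  have h2 : ∀ κ ∈ s, 1 / (nm κ : ℝ) ≤
      2 * ∑ j ∈ Finset.range (J + 1), (if nm κ ≤ 2 ^ j then (1 : ℝ) / 2 ^ j else 0) := by
    intro κ hκ
    rw [hs, Finset.mem_filter, mem_ball] at hκ
    have p := nm_pos κ
    obtain ⟨n, hn⟩ : ∃ n : ℕ, nm κ = n := ⟨(nm κ).toNat, by omega⟩
    rw [hn]
    have hn1 : 1 ≤ n := by omega
    have hn2 : n ≤ 2 ^ J := by
      have := hκ.1
      rw [hn] at this
      exact_mod_cast this
    have := dyadic J n hn1 hn2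
    have e : ∀ j, ((n : ℤ) ≤ 2 ^ j ↔ n ≤ 2 ^ j) := fun j => by exact_mod_cast Iff.rfl
    simp only [e]
    rw [Int.cast_natCast]
    exact this
  have h3 : ∑ κ ∈ s, 1 / (nm κ : ℝ) ≤
      2 * ∑ j ∈ Finset.range (J + 1), (s.filter fun κ => nm κ ≤ 2 ^ j).card * ((1 : ℝ) / 2 ^ j) := by
    refine (Finset.sum_le_sum h2).trans ?_
    rw [← Finset.mul_sum, Finset.sum_comm]
    apply mul_le_mul_of_nonneg_left _ (by norm_num)
    apply Finset.sum_le_sum
    intro j _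
    rw [← Finset.sum_filter, Finset.sum_const, nsmul_eq_mul]
  have h4 : ∀ j ∈ Finset.range (J + 1), (s.filter fun κ => nm κ ≤ 2 ^ j).card * ((1 : ℝ) / 2 ^ j) ≤
      24 * (B / q) * (8 * 2 ^ J / q ^ 2 + 1) := by
    intro j hj
    have hjJ : j ≤ J := by rw [Finset.mem_range] at hj; omega
    have hpow : (2 : ℕ) ^ j ≤ 2 ^ J := Nat.pow_le_pow_right (by norm_num) hjJ
    have hc : ((s.filter fun κ => nm κ ≤ 2 ^ j).card : ℝ) ≤
        24 * (B * ((2 ^ j : ℕ) : ℝ) / q) * (8 * ((2 ^ j : ℕ) : ℝ) / q ^ 2 + 1) := by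
      have hsub2 : (s.filter fun κ => nm κ ≤ 2 ^ j) ⊆
          (ball (((2 ^ j : ℕ)) : ℤ)).filter (fun γ => CK q γ ∧ γ ≠ 1) := by
        intro κ hκ
        rw [Finset.mem_filter, hs, Finset.mem_filter] at hκ
        rw [Finset.mem_filter, mem_ball]
        refine ⟨?_, hκ.1.2⟩
        have := hκ.2
        exact_mod_cast this
      have h5 := count_all hq (2 ^ j) B (Nat.one_le_two_pow) hB1 (fun n hn1 hn2 => hB n hn1
        (hn2.trans (Nat.add_le_add_right (Nat.pow_le_pow_left hpow 2) 1)))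
      exact (Nat.cast_le.mpr (Finset.card_le_card hsub2)).trans h5
    have hp : (0 : ℝ) < 2 ^ j := by positivity
    calc _ ≤ (24 * (B * ((2 ^ j : ℕ) : ℝ) / q) * (8 * ((2 ^ j : ℕ) : ℝ) / q ^ 2 + 1)) *
          ((1 : ℝ) / 2 ^ j) := mul_le_mul_of_nonneg_right hc (by positivity)
      _ = 24 * (B / q) * (8 * 2 ^ j / q ^ 2 + 1) := by
          push_cast; field_simp
      _ ≤ _ := by
          apply mul_le_mul_of_nonneg_left _ (by positivity)
          have : (2 : ℝ) ^ j ≤ 2 ^ J := pow_le_pow_right₀ (by norm_num) hjJ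
          have h6 : 8 * (2 : ℝ) ^ j / q ^ 2 ≤ 8 * 2 ^ J / q ^ 2 := by
            apply div_le_div_of_nonneg_right _ (by positivity)
            linarith
          linarith
  have h5 := Finset.sum_le_sum h4
  rw [Finset.sum_const, Finset.card_range, nsmul_eq_mul] at h5
  push_cast at h5
  have h6 : (48 : ℝ) * (J + 1) * (B / q) * (8 * 2 ^ J / q ^ 2 + 1) =
      2 * (((J : ℝ) + 1) * (24 * (B / q) * (8 * 2 ^ J / q ^ 2 + 1))) := by ring
  rw [h6]
  linarith

end Pool.Agent.Lib.MP_a22f36
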