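import Mathlib

set_option autoImplicit false

/-!
# Additive prime trees: definitions

The definitions follow the problem file word by word: additive prime trees, sets of
finite type, primitive sets.
-/

namespace Pool.Agent.Lib.MP_a22f36

/-- The additive prime tree of the finite set `P` rooted at `(x, y)`, as a predicate on pairs:
the smallest set of pairs which contains `(x, y)` and which, whenever it contains `(X, Y)` with
`gcd(X, Y, N(P)) = 1`, with `p ∣ X` for some `p ∈ P` and with `p' ∣ Y` for some `p' ∈ P`,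
also contains `(X, X + Y)` and `(X + Y, Y)`. Here `N(P) = ∏ p ∈ P, p`. -/
inductive APT (P : Finset ℕ) (x y : ℕ) : ℕ → ℕ → Prop
  | root : APT P x y x y
  | left (X Y : ℕ) : APT P x y X Y → Nat.gcd (Nat.gcd X Y) (∏ p ∈ P, p) = 1 →
      (∃ p ∈ P, p ∣ X) → (∃ p ∈ P, p ∣ Y) → APT P x y X (X + Y)
  | right (X Y : ℕ) : APT P x y X Y → Nat.gcd (Nat.gcd X Y) (∏ p ∈ P, p) = 1 →
      (∃ p ∈ P, p ∣ X) → (∃ p ∈ P, p ∣ Y) → APT P x y (X + Y) Y

/-- `P` is of finite type if for all positive integers `x, y` the tree rooted at `(x, y)`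
is finite. -/
def FiniteType (P : Finset ℕ) : Prop :=
  ∀ x y : ℕ, 0 < x → 0 < y → {q : ℕ × ℕ | APT P x y q.1 q.2}.Finite

/-- A finite set of primes is primitive if it is of infinite type (that is, not of finite type)
and every proper subset is of finite type. -/
def IsPrimitive (P : Finset ℕ) : Prop :=
  (∀ p ∈ P, p.Prime) ∧ ¬ FiniteType P ∧ ∀ Q : Finset ℕ, Q ⊂ P → FiniteType Q

end Pool.Agent.Lib.MP_a22f36
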