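import Mathlib

set_option autoImplicit false

/-!
# The divisor bound
-/

namespace Pool.Agent.Lib.MP_a22f36

lemma pow_le_two_pow (k : ℕ) : ∃ A : ℕ, 1 ≤ A ∧ ∀ e : ℕ, (e + 1) ^ k ≤ A * 2 ^ e := by
  have h := tendsto_pow_const_mul_const_pow_of_abs_lt_one k (r := (1 / 2 : ℝ))
    (by rw [abs_of_pos] <;> norm_num)
  have hb := h.bddAbove_range
  obtain ⟨M, hM⟩ := hb
  refine ⟨⌈2 * M⌉₊ + 1, by omega, ?_⟩
  intro e
  have h1 : ((e + 1 : ℕ) : ℝ) ^ k * (1 / 2 : ℝ) ^ (e + 1) ≤ M := hM ⟨e + 1, rfl⟩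
  have h2 : ((e + 1 : ℕ) : ℝ) ^ k ≤ 2 * M * 2 ^ e := by
    have h3 : (0 : ℝ) < 2 ^ (e + 1) := by positivity
    have h4 := mul_le_mul_of_nonneg_right h1 h3.le
    have h5 : ((e + 1 : ℕ) : ℝ) ^ k * (1 / 2 : ℝ) ^ (e + 1) * 2 ^ (e + 1) = ((e + 1 : ℕ) : ℝ) ^ k := by
      rw [mul_assoc, ← mul_pow]; norm_num
    rw [h5, pow_succ] at h4
    linarith
  have h3 : ((e + 1 : ℕ) : ℝ) ^ k ≤ ((⌈2 * M⌉₊ + 1 : ℕ) : ℝ) * 2 ^ e := by
    refine h2.trans (mul_le_mul_of_nonneg_right ?_ (by positivity))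
    push_cast
    linarith [Nat.le_ceil (2 * M)]
  exact_mod_cast h3

/-- For every `k` there is `C` such that `τ(n)^k ≤ C n`. -/
theorem divisor_bound (k : ℕ) : ∃ C : ℕ, 1 ≤ C ∧ ∀ n : ℕ, 1 ≤ n → n.divisors.card ^ k ≤ C * n := by
  obtain ⟨A, hA1, hA⟩ := pow_le_two_pow k
  refine ⟨A ^ (2 ^ k), Nat.one_le_pow _ _ hA1, ?_⟩
  intro n hn
  have hn0 : n ≠ 0 := by omega
  rw [Nat.card_divisors hn0, ← Finset.prod_pow]
  have h1 : ∀ p ∈ n.primeFactors, (n.factorization p + 1) ^ k ≤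
      (if p < 2 ^ k then A else 1) * p ^ (n.factorization p) := by
    intro p hp
    have hp2 : 2 ≤ p := (Nat.prime_of_mem_primeFactors hp).two_le
    split_ifs with h
    · refine (hA _).trans (Nat.mul_le_mul_left A ?_)
      exact Nat.pow_le_pow_left hp2 _
    · push Not at h
      rw [one_mul]
      have h2 : n.factorization p + 1 ≤ 2 ^ (n.factorization p) := Nat.lt_two_pow_self
      calc (n.factorization p + 1) ^ k ≤ (2 ^ (n.factorization p)) ^ k := Nat.pow_le_pow_left h2 k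
        _ = (2 ^ k) ^ (n.factorization p) := by rw [← pow_mul, ← pow_mul, mul_comm]
        _ ≤ p ^ (n.factorization p) := Nat.pow_le_pow_left h _
  refine (Finset.prod_le_prod' h1).trans ?_
  rw [Finset.prod_mul_distrib]
  apply Nat.mul_le_mul
  · rw [Finset.prod_ite, Finset.prod_const, Finset.prod_const_one, mul_one]
    apply Nat.pow_le_pow_right hA1
    calc (n.primeFactors.filter fun p => p < 2 ^ k).card ≤ (Finset.range (2 ^ k)).card := by
          apply Finset.card_le_card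
          intro p hp
          rw [Finset.mem_filter] at hp
          exact Finset.mem_range.mpr hp.2
      _ = 2 ^ k := Finset.card_range _
  · exact (Nat.prod_factorization_pow_eq_self hn0).le

end Pool.Agent.Lib.MP_a22f36
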