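import Mathlib
import Pool.Agent.Lib.MP_a22f36.SL2

set_option autoImplicit false
set_option linter.unusedSectionVars false

/-!
# Lower bound for the size of `ST T`
-/

namespace Pool.Agent.Lib.MP_a22f36

open Matrix

lemma exists_ST {T a c : ℕ} (hc : T < 2 * c) (hcT : c ≤ T) (ha0 : 0 < a) (ha : a < c)
    (hcop : Nat.Coprime a c) : ∃ s ∈ ST T, s.1 0 0 = a ∧ s.1 1 0 = c := by
  have hc1 : 1 < c := by omega
  obtain ⟨d, hdc, had⟩ := Nat.exists_mul_mod_eq_one_of_coprime hcop hc1
  have hd0 : 0 < d := by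
    rcases Nat.eq_zero_or_pos d with h | h
    · rw [h] at had; simp at had
    · exact h
  obtain ⟨b, hb⟩ : ∃ b, a * d = c * b + 1 := ⟨a * d / c, by
    have := Nat.div_add_mod (a * d) c
    rw [had] at this; exact this.symm⟩
  have hbc : b < c := by
    by_contra h
    push Not at h
    have h1 : c * c ≤ c * b := Nat.mul_le_mul_left c h
    have h2 : a * d ≤ c * c := Nat.mul_le_mul ha.le hdc.le
    omega
  have hdet : (!![(a : ℤ), (b : ℤ); (c : ℤ), (d : ℤ)]).det = 1 := by
    rw [Matrix.det_fin_two_of]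
    have : (a : ℤ) * d = c * b + 1 := by exact_mod_cast hb
    rw [this]; ring
  let s : Gam := (⟨!![(a : ℤ), (b : ℤ); (c : ℤ), (d : ℤ)], hdet⟩ : Matrix.SpecialLinearGroup (Fin 2) ℤ)
  have s00 : s.1 0 0 = a := rfl
  have s01 : s.1 0 1 = b := rfl
  have s10 : s.1 1 0 = c := rfl
  have s11 : s.1 1 1 = d := rfl
  have hnm : nm s ≤ T := by
    unfold nm
    rw [s00, s01, s10, s11]
    simp only [Nat.abs_cast]
    omega
  refine ⟨s, mem_ST.mpr ⟨hnm, ?_⟩, s00, s10⟩
  rw [s00, s10, s11]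
  simp only [Nat.abs_cast]
  omega

lemma card_ST_ge (T : ℕ) (B : ℕ) (hT : 2 ≤ T) (hB : ∀ n, 1 ≤ n → n ≤ T → n.divisors.card ≤ B) :
    (T : ℝ) ^ 2 ≤ 4 * B * (ST T).card := by
  classical
  -- the set of pairs
  let I : Finset ℕ := Finset.Ioc (T / 2) T
  let Q : Finset (Σ _ : ℕ, ℕ) := I.sigma fun c => (Finset.range c).filter fun a => c.Coprime a
  have hQ : Q.card = ∑ c ∈ I, Nat.totient c := by
    simp only [Q, Finset.card_sigma]
    rfl
  have hex : ∀ z ∈ Q, ∃ s ∈ ST T, s.1 0 0 = (z.2 : ℤ) ∧ s.1 1 0 = (z.1 : ℤ) := by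
    rintro ⟨c, a⟩ hz
    simp only [Q, I, Finset.mem_sigma, Finset.mem_Ioc, Finset.mem_filter, Finset.mem_range] at hz
    obtain ⟨⟨h1, h2⟩, h3, h4⟩ := hz
    have ha0 : 0 < a := by
      rcases Nat.eq_zero_or_pos a with h | h
      · subst h
        rw [Nat.coprime_zero_right] at h4
        omega
      · exact h
    exact exists_ST (T := T) (a := a) (c := c) (by omega) h2 ha0 h3 h4.symm
  choose! F hF1 hF2 hF3 using hex
  have hcard : Q.card ≤ (ST T).card := by
    apply Finset.card_le_card_of_injOn F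
    · intro z hz; exact hF1 z hz
    · intro z hz w hw h
      have e1 := hF2 z hz
      have e2 := hF3 z hz
      rw [h, hF2 w hw] at e1
      rw [h, hF3 w hw] at e2
      have e1' : w.2 = z.2 := by exact_mod_cast e1
      have e2' : w.1 = z.1 := by exact_mod_cast e2
      cases z; cases w
      simp only at e1' e2'
      subst e1' e2'
      rfl
  have hsum : ∑ c ∈ I, c ≤ B * Q.card := by
    rw [hQ, Finset.mul_sum]
    apply Finset.sum_le_sum
    intro c hc
    simp only [I, Finset.mem_Ioc] at hc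
    have hc0 : c ≠ 0 := by omega
    have hc1 : 1 ≤ c := by omega
    calc c = ∑ d ∈ c.divisors, Nat.totient d := (Nat.sum_totient c).symm
      _ ≤ ∑ _d ∈ c.divisors, Nat.totient c := by
          apply Finset.sum_le_sum
          intro d hd
          exact Nat.le_of_dvd (Nat.totient_pos.mpr (by omega))
            (Nat.totient_dvd_of_dvd (Nat.dvd_of_mem_divisors hd))
      _ = c.divisors.card * Nat.totient c := by rw [Finset.sum_const, smul_eq_mul]
      _ ≤ B * Nat.totient c := Nat.mul_le_mul_right _ (hB c hc1 hc.2)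
  have hlow : (T : ℝ) ^ 2 / 4 ≤ ∑ c ∈ I, (c : ℝ) := by
    have h1 : ∀ c ∈ I, (T : ℝ) / 2 ≤ (c : ℝ) := by
      intro c hc
      simp only [I, Finset.mem_Ioc] at hc
      have : (T : ℝ) ≤ 2 * c := by
        have : T ≤ 2 * c := by omega
        exact_mod_cast this
      linarith
    have h2 : (I.card : ℝ) * ((T : ℝ) / 2) ≤ ∑ c ∈ I, (c : ℝ) := by
      rw [← nsmul_eq_mul]
      exact Finset.card_nsmul_le_sum _ _ _ h1
    have h3 : (T : ℝ) / 2 ≤ I.card := by
      have : I.card = T - T / 2 := by simp [I]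
      rw [this]
      have : T ≤ 2 * (T - T / 2) := by omega
      have : (T : ℝ) ≤ 2 * ((T - T / 2 : ℕ) : ℝ) := by exact_mod_cast this
      linarith
    have h4 : (0 : ℝ) ≤ T := by positivity
    nlinarith
  have h5 : ∑ c ∈ I, (c : ℝ) ≤ (B : ℝ) * (ST T).card := by
    have : ∑ c ∈ I, c ≤ B * (ST T).card := hsum.trans (Nat.mul_le_mul_left B hcard)
    have h6 : ((∑ c ∈ I, c : ℕ) : ℝ) ≤ ((B * (ST T).card : ℕ) : ℝ) := Nat.cast_le.mpr this
    push_cast at h6
    exact h6
  linarith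

end Pool.Agent.Lib.MP_a22f36
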