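import Mathlib
import Pool.Agent.Lib.MP_a22f36.Bound
import Pool.Agent.Lib.MP_a22f36.Lower
import Pool.Agent.Lib.MP_a22f36.Divisor
import Pool.Agent.Lib.MP_a22f36.Count

set_option autoImplicit false
set_option linter.unusedSectionVars false

/-!
# The final numerical inequality
-/

namespace Pool.Agent.Lib.MP_a22f36

open Matrix

lemma Hs_mono {J K : ℕ} (h : J ≤ K) : Hs J ≤ Hs K := by
  unfold Hs
  apply Finset.sum_le_sum_of_subset_of_nonneg
  · exact Finset.range_mono h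
  · intro k _ _; positivity

lemma Hs_two_pow (n : ℕ) : Hs (2 ^ n) ≤ n + 1 := by
  induction n with
  | zero => simp [Hs]
  | succ n ih =>
    have e : (2 : ℕ) ^ (n + 1) = 2 ^ n + 2 ^ n := by ring
    have h1 : Hs (2 ^ (n + 1)) = Hs (2 ^ n) + ∑ k ∈ Finset.range (2 ^ n),
        1 / (max 1 ((2 ^ n + k : ℕ) : ℝ)) := by
      unfold Hs
      rw [e, Finset.sum_range_add]
    have h2 : ∑ k ∈ Finset.range (2 ^ n), 1 / (max 1 ((2 ^ n + k : ℕ) : ℝ)) ≤ 1 := by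
      calc _ ≤ ∑ k ∈ Finset.range (2 ^ n), 1 / (2 : ℝ) ^ n := by
            apply Finset.sum_le_sum
            intro k _
            apply one_div_le_one_div_of_le (by positivity)
            refine le_max_of_le_right ?_
            push_cast
            have : (0 : ℝ) ≤ k := by positivity
            linarith
        _ = 1 := by
            rw [Finset.sum_const, Finset.card_range, nsmul_eq_mul]
            push_cast
            field_simp
    rw [h1, Nat.cast_succ]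
    linarith

/-- maximum of the number of divisors -/
def mxd (N : ℕ) : ℕ := (Finset.Icc 1 N).sup fun n => n.divisors.card

lemma le_mxd (N n : ℕ) (h1 : 1 ≤ n) (h2 : n ≤ N) : n.divisors.card ≤ mxd N :=
  Finset.le_sup (f := fun n : ℕ => n.divisors.card) (Finset.mem_Icc.mpr ⟨h1, h2⟩)

lemma one_le_mxd (N : ℕ) (h : 1 ≤ N) : 1 ≤ mxd N := by
  have := le_mxd N 1 le_rfl h
  simpa using this

lemma mxd_pow (k C N : ℕ) (hC : ∀ n : ℕ, 1 ≤ n → n.divisors.card ^ k ≤ C * n) (hN : 1 ≤ N) :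
    mxd N ^ k ≤ C * N := by
  obtain ⟨n, hn, hn'⟩ := Finset.exists_mem_eq_sup (Finset.Icc 1 N)
    ⟨1, Finset.mem_Icc.mpr ⟨le_rfl, hN⟩⟩ (fun n : ℕ => n.divisors.card)
  unfold mxd
  rw [hn']
  rw [Finset.mem_Icc] at hn
  exact (hC n hn.1).trans (Nat.mul_le_mul_left C hn.2)

lemma exists_large (C : ℝ) : ∃ r : ℕ, 1 ≤ r ∧ (192 : ℝ) ^ 2 * (96 * r + 1) ^ 2 * C ≤ 2 ^ r := by
  have h := tendsto_pow_const_mul_const_pow_of_abs_lt_one 2 (r := (1 / 2 : ℝ))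
    (by rw [abs_of_pos] <;> norm_num)
  have hev : ∀ᶠ n : ℕ in Filter.atTop, (n : ℝ) ^ 2 * (1 / 2) ^ n < 1 / (192 ^ 2 * 97 ^ 2 * (|C| + 1)) := by
    apply h.eventually_lt_const
    positivity
  obtain ⟨r, hr1, hr2⟩ := (hev.and (Filter.eventually_ge_atTop 1)).exists
  refine ⟨r, hr2, ?_⟩
  have hrr : (1 : ℝ) ≤ r := by exact_mod_cast hr2
  have h2 : (0 : ℝ) < 2 ^ r := by positivity
  have h3 : (r : ℝ) ^ 2 * (192 ^ 2 * 97 ^ 2 * (|C| + 1)) < 2 ^ r := by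
    rw [lt_div_iff₀ (by positivity)] at hr1
    have h4 : (1 / 2 : ℝ) ^ r * 2 ^ r = 1 := by rw [← mul_pow]; norm_num
    have h5 := mul_lt_mul_of_pos_right hr1 h2
    have h6 : (r : ℝ) ^ 2 * (1 / 2) ^ r * (192 ^ 2 * 97 ^ 2 * (|C| + 1)) * 2 ^ r =
      (r : ℝ) ^ 2 * (192 ^ 2 * 97 ^ 2 * (|C| + 1)) * ((1 / 2 : ℝ) ^ r * 2 ^ r) := by ring
    rw [h6, h4] at h5
    linarith
  have h7 : (96 * (r : ℝ) + 1) ^ 2 ≤ 97 ^ 2 * (r : ℝ) ^ 2 := by
    rw [← mul_pow]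
    apply pow_le_pow_left₀ (by positivity)
    linarith
  have h8 : C ≤ |C| + 1 := by linarith [le_abs_self C]
  calc (192 : ℝ) ^ 2 * (96 * r + 1) ^ 2 * C ≤ 192 ^ 2 * (96 * r + 1) ^ 2 * (|C| + 1) :=
        mul_le_mul_of_nonneg_left h8 (by positivity)
    _ ≤ 192 ^ 2 * (97 ^ 2 * (r : ℝ) ^ 2) * (|C| + 1) := by
        apply mul_le_mul_of_nonneg_right _ (by positivity)
        exact mul_le_mul_of_nonneg_left h7 (by positivity)
    _ ≤ 2 ^ r := by nlinarith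

lemma ratio_aux (a b c : ℝ) (ha : 0 < a) (hb : 0 < b) : c = (4 * a * c / b) * (b / 2) / (2 * a) := by
  field_simp
  ring

open Classical in
theorem numerics : ∃ T q0 : ℕ, 1 ≤ T ∧ 3 ≤ q0 ∧ (0 : ℝ) < (ST T).card ∧ ∀ q : ℕ, q0 ≤ q → ∃ j : ℕ,
    KT T ^ (2 ^ j + 2 ^ j) * (∑ κ ∈ (ball ((2 * T : ℤ) ^ (2 ^ j + 2 ^ j))).filter (CK q),
      1 / (nm κ : ℝ)) * (q : ℝ) ^ 2 < (((ST T).card : ℝ) / 2) ^ (2 ^ j + 2 ^ j) := by
  obtain ⟨C, hC1, hC⟩ := divisor_bound 96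
  obtain ⟨r, hr1, hr⟩ := exists_large (C : ℝ)
  have hCr : (1 : ℝ) ≤ C := by exact_mod_cast hC1
  -- the choice of T
  obtain ⟨t, ht⟩ : ∃ t, t + 1 = 48 * r := ⟨48 * r - 1, by omega⟩
  set T : ℕ := 2 ^ t with hT
  have h2T : 2 * T = 2 ^ (48 * r) := by rw [hT, ← ht, pow_succ]; ring
  have hT1 : 1 ≤ T := Nat.one_le_two_pow
  have hT2 : 2 ≤ T := by
    rw [hT]
    calc 2 = 2 ^ 1 := rfl
      _ ≤ 2 ^ t := Nat.pow_le_pow_right (by norm_num) (by omega)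
  have hTr : (1 : ℝ) ≤ T := by exact_mod_cast hT1
  set B := mxd T with hB
  have hB1 : 1 ≤ B := one_le_mxd T hT1
  have hBr : (1 : ℝ) ≤ B := by exact_mod_cast hB1
  have hBT := card_ST_ge T B hT2 (fun n h1 h2 => le_mxd T n h1 h2)
  have hSpos : (0 : ℝ) < (ST T).card := by
    by_contra h
    push Not at h
    have : 4 * (B : ℝ) * (ST T).card ≤ 0 := mul_nonpos_of_nonneg_of_nonpos (by positivity) h
    nlinarith
  -- size of B
  have hB2 : (B : ℝ) ^ 2 ≤ C * 2 ^ r := by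
    have h1 := mxd_pow 96 C T hC hT1
    have h2 : (B : ℝ) ^ 96 ≤ C * 2 ^ (48 * r) := by
      have h3 : ((mxd T ^ 96 : ℕ) : ℝ) ≤ ((C * T : ℕ) : ℝ) := Nat.cast_le.mpr h1
      push_cast at h3
      have h4 : (T : ℝ) ≤ 2 ^ (48 * r) := by
        have : (2 * T : ℝ) = 2 ^ (48 * r) := by exact_mod_cast h2T
        linarith
      calc (B : ℝ) ^ 96 ≤ C * T := h3
        _ ≤ _ := mul_le_mul_of_nonneg_left h4 (by positivity)
    have h5 : ((B : ℝ) ^ 2) ^ 48 ≤ (C * 2 ^ r) ^ 48 := by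
      rw [← pow_mul, mul_pow, ← pow_mul]
      calc (B : ℝ) ^ (2 * 48) ≤ C * 2 ^ (48 * r) := h2
        _ ≤ (C : ℝ) ^ 48 * 2 ^ (r * 48) := by
            rw [mul_comm r 48]
            apply mul_le_mul_of_nonneg_right _ (by positivity)
            exact le_self_pow₀ hCr (by norm_num)
    exact le_of_pow_le_pow_left₀ (by norm_num) (by positivity) h5
  -- the ratio
  have hKT : KT T ≤ 12 * T * (96 * r + 1) := by
    unfold KT
    apply mul_le_mul_of_nonneg_left _ (by positivity)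
    have h1 : 3 * T ^ 2 + 1 ≤ 2 ^ (2 * t + 2) := by
      have : 2 ^ (2 * t + 2) = 4 * T ^ 2 := by rw [hT]; ring
      rw [this]
      have : 1 ≤ T ^ 2 := Nat.one_le_pow _ _ hT1
      omega
    refine (Hs_mono h1).trans ((Hs_two_pow _).trans ?_)
    push_cast
    have : (t : ℝ) + 1 = 48 * r := by exact_mod_cast ht
    linarith
  set ρ : ℝ := 4 * T * KT T / (ST T).card with hρ
  have hρ0 : 0 ≤ ρ := by
    have := KT_nonneg T
    positivity
  have hρ1 : ρ ≤ 192 * (96 * r + 1) * B := by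
    rw [hρ, div_le_iff₀ hSpos]
    have h1 : 4 * T * KT T ≤ 4 * T * (12 * T * (96 * r + 1)) :=
      mul_le_mul_of_nonneg_left hKT (by positivity)
    have h2 : 48 * (96 * (r : ℝ) + 1) * (T : ℝ) ^ 2 ≤ 48 * (96 * r + 1) * (4 * B * (ST T).card) :=
      mul_le_mul_of_nonneg_left hBT (by positivity)
    linarith
  have hρ2 : ρ ^ 2 ≤ 2 ^ (2 * r) := by
    calc ρ ^ 2 ≤ (192 * (96 * r + 1) * B) ^ 2 := pow_le_pow_left₀ hρ0 hρ1 2
      _ = 192 ^ 2 * (96 * r + 1) ^ 2 * (B : ℝ) ^ 2 := by ring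
      _ ≤ 192 ^ 2 * (96 * r + 1) ^ 2 * (C * 2 ^ r) := mul_le_mul_of_nonneg_left hB2 (by positivity)
      _ = (192 ^ 2 * (96 * r + 1) ^ 2 * C) * 2 ^ r := by ring
      _ ≤ 2 ^ r * 2 ^ r := mul_le_mul_of_nonneg_right hr (by positivity)
      _ = _ := by rw [← pow_add]; congr 1; ring
  -- now q
  refine ⟨T, max 3 (max (2 ^ (16 * r)) ((1 + 42336 * C) ^ 16 + 1)), hT1, le_max_left _ _, hSpos, ?_⟩
  intro q hq
  have hq3 : 3 ≤ q := (le_max_left _ _).trans hq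
  have hqr : 2 ^ (16 * r) ≤ q := ((le_max_left _ _).trans (le_max_right _ _)).trans hq
  have hqC : (1 + 42336 * C) ^ 16 + 1 ≤ q := ((le_max_right _ _).trans (le_max_right _ _)).trans hq
  have hex : ∃ j : ℕ, q ^ 3 ≤ 2 ^ (96 * r * 2 ^ j) := by
    refine ⟨q ^ 3, ?_⟩
    have h1 : q ^ 3 ≤ 2 ^ (q ^ 3) := Nat.lt_two_pow_self.le
    refine h1.trans (Nat.pow_le_pow_right (by norm_num) ?_)
    have h2 : q ^ 3 ≤ 2 ^ (q ^ 3) := Nat.lt_two_pow_self.le
    calc q ^ 3 ≤ 2 ^ (q ^ 3) := h2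
      _ ≤ 96 * r * 2 ^ (q ^ 3) := Nat.le_mul_of_pos_left _ (by positivity)
  set j := Nat.find hex with hj
  have hj1 : q ^ 3 ≤ 2 ^ (96 * r * 2 ^ j) := Nat.find_spec hex
  have hj2 : 2 ^ (96 * r * 2 ^ j) ≤ q ^ 6 := by
    rcases Nat.eq_zero_or_pos j with h0 | h0
    · rw [h0]
      calc 2 ^ (96 * r * 2 ^ 0) = (2 ^ (16 * r)) ^ 6 := by rw [← pow_mul]; congr 1; ring
        _ ≤ q ^ 6 := Nat.pow_le_pow_left hqr 6
    · have h1 := Nat.find_min hex (m := j - 1) (by omega)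
      push Not at h1
      obtain ⟨i, hi⟩ : ∃ i, j = i + 1 := ⟨j - 1, by omega⟩
      rw [hi] at h1 ⊢
      simp only [Nat.add_sub_cancel] at h1
      calc 2 ^ (96 * r * 2 ^ (i + 1)) = (2 ^ (96 * r * 2 ^ i)) ^ 2 := by
            rw [← pow_mul]; congr 1; ring
        _ ≤ (q ^ 3) ^ 2 := Nat.pow_le_pow_left h1.le 2
        _ = q ^ 6 := by rw [← pow_mul]
  refine ⟨j, ?_⟩
  set m := 2 ^ j with hm
  set n := 2 * r * m with hn
  set z : ℝ := 2 ^ n with hz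
  have hz1 : 1 ≤ z := one_le_pow₀ (by norm_num)
  have hX : (2 : ℝ) ^ (96 * r * m) = z ^ 48 := by rw [hz, ← pow_mul]; congr 1; rw [hn]; ring
  have hqpos : (0 : ℝ) < q := by positivity
  have hqz : (q : ℝ) ≤ z ^ 16 := by
    have h1 : (q : ℝ) ^ 3 ≤ (z ^ 16) ^ 3 := by
      have h2 : ((q ^ 3 : ℕ) : ℝ) ≤ ((2 ^ (96 * r * m) : ℕ) : ℝ) := Nat.cast_le.mpr hj1
      push_cast at h2
      rw [hX] at h2
      rw [← pow_mul]
      exact h2
    exact le_of_pow_le_pow_left₀ (by norm_num) (by positivity) h1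
  have hzq : z ^ 8 ≤ (q : ℝ) := by
    have h1 : (z ^ 8) ^ 6 ≤ (q : ℝ) ^ 6 := by
      have h2 : ((2 ^ (96 * r * m) : ℕ) : ℝ) ≤ ((q ^ 6 : ℕ) : ℝ) := Nat.cast_le.mpr hj2
      push_cast at h2
      rw [hX] at h2
      rw [← pow_mul]
      exact h2
    exact le_of_pow_le_pow_left₀ (by norm_num) (by positivity) h1
  have hzC : 1 + 42336 * (C : ℝ) < z := by
    by_contra h
    push Not at h
    have h1 : z ^ 16 ≤ (1 + 42336 * (C : ℝ)) ^ 16 := pow_le_pow_left₀ (by positivity) h 16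
    have h2 : (((1 + 42336 * C) ^ 16 + 1 : ℕ) : ℝ) ≤ q := Nat.cast_le.mpr hqC
    push_cast at h2
    linarith
  -- the kernel sum
  set J := 96 * r * m with hJ
  have hball : (2 * T : ℤ) ^ (m + m) = 2 ^ J := by
    have : (2 * T : ℤ) = 2 ^ (48 * r) := by exact_mod_cast h2T
    rw [this, ← pow_mul, hJ]; congr 1; ring
  have h2Tr : (2 * T : ℝ) ^ (m + m) = z ^ 48 := by
    have : (2 * T : ℝ) = 2 ^ (48 * r) := by exact_mod_cast h2T
    rw [this, ← pow_mul, ← hX]; congr 1; ring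
  rw [hball]
  set B' := mxd ((2 ^ J) ^ 2 + 1) with hB'
  have hB'1 : 1 ≤ B' := one_le_mxd _ (by omega)
  have hker := ker_sum hq3 J B' hB'1 (fun n h1 h2 => le_mxd _ n h1 h2)
  rw [hX] at hker
  have hB'z : (B' : ℝ) ≤ 2 * C * z := by
    have h1 := mxd_pow 96 C ((2 ^ J) ^ 2 + 1) hC (by omega)
    have h2 : ((mxd ((2 ^ J) ^ 2 + 1) ^ 96 : ℕ) : ℝ) ≤ ((C * ((2 ^ J) ^ 2 + 1) : ℕ) : ℝ) :=
      Nat.cast_le.mpr h1
    push_cast at h2
    rw [hX] at h2
    have h3 : (B' : ℝ) ^ 96 ≤ (2 * C * z) ^ 96 := by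
      calc (B' : ℝ) ^ 96 ≤ C * ((z ^ 48) ^ 2 + 1) := h2
        _ ≤ C * (z ^ 96 + z ^ 96) := by
            apply mul_le_mul_of_nonneg_left _ (by positivity)
            have h5 : 1 ≤ z ^ 96 := one_le_pow₀ hz1
            have h6 : (z ^ 48) ^ 2 = z ^ 96 := by rw [← pow_mul]
            rw [h6]
            linarith
        _ = (2 * C) * z ^ 96 := by ring
        _ ≤ (2 * C) ^ 96 * z ^ 96 := by
            apply mul_le_mul_of_nonneg_right _ (by positivity)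
            exact le_self_pow₀ (by linarith) (by norm_num)
        _ = _ := by rw [mul_pow (2 * (C : ℝ)) z]
    exact le_of_pow_le_pow_left₀ (by norm_num) (by positivity) h3
  have hJz : (J : ℝ) + 1 ≤ 49 * z := by
    have h1 : J + 1 ≤ 49 * 2 ^ n := by
      have h2 : n + 1 ≤ 2 ^ n := Nat.lt_two_pow_self
      have h3 : J = 48 * n := by rw [hJ, hn]; ring
      omega
    have h4 : ((J + 1 : ℕ) : ℝ) ≤ ((49 * 2 ^ n : ℕ) : ℝ) := Nat.cast_le.mpr h1
    push_cast at h4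
    exact h4
  set Sg := ∑ κ ∈ (ball ((2 : ℤ) ^ J)).filter (CK q), 1 / (nm κ : ℝ) with hSg
  have hSg0 : 0 ≤ Sg := by
    apply Finset.sum_nonneg
    intro κ _
    have := nm_pos_real κ
    positivity
  have hmain : z * (Sg * (q : ℝ) ^ 2) < z ^ 48 := by
    have h1 : Sg * (q : ℝ) ^ 2 ≤ q ^ 2 + 4704 * C * z ^ 2 * (8 * z ^ 48 / q + q) := by
      calc Sg * (q : ℝ) ^ 2 ≤ (1 + 48 * (J + 1) * (B' / q) * (8 * z ^ 48 / q ^ 2 + 1)) * q ^ 2 :=
            mul_le_mul_of_nonneg_right hker (by positivity)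
        _ = q ^ 2 + 48 * (J + 1) * B' * (8 * z ^ 48 / q + q) := by field_simp
        _ ≤ q ^ 2 + 48 * (49 * z) * (2 * C * z) * (8 * z ^ 48 / q + q) := by
            have h2 : 48 * ((J : ℝ) + 1) * B' ≤ 48 * (49 * z) * (2 * C * z) :=
              mul_le_mul (by linarith) hB'z (by positivity) (by positivity)
            have h3 : (0 : ℝ) ≤ 8 * z ^ 48 / q + q := by positivity
            have := mul_le_mul_of_nonneg_right h2 h3
            linarith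
        _ = _ := by ring
    have h2 : 8 * z ^ 48 / q ≤ 8 * z ^ 40 := by
      rw [div_le_iff₀ hqpos]
      calc 8 * z ^ 48 = 8 * z ^ 40 * z ^ 8 := by ring
        _ ≤ _ := mul_le_mul_of_nonneg_left hzq (by positivity)
    have h3 : (q : ℝ) ^ 2 ≤ z ^ 32 := by
      calc (q : ℝ) ^ 2 ≤ (z ^ 16) ^ 2 := pow_le_pow_left₀ hqpos.le hqz 2
        _ = _ := by rw [← pow_mul]
    have h4 : z ^ 32 ≤ z ^ 46 := pow_le_pow_right₀ hz1 (by norm_num)
    have h5 : z ^ 16 ≤ z ^ 44 := pow_le_pow_right₀ hz1 (by norm_num)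
    have h5' : z ^ 40 ≤ z ^ 44 := pow_le_pow_right₀ hz1 (by norm_num)
    have h6 : Sg * (q : ℝ) ^ 2 ≤ (1 + 42336 * C) * z ^ 46 := by
      calc Sg * (q : ℝ) ^ 2 ≤ q ^ 2 + 4704 * C * z ^ 2 * (8 * z ^ 48 / q + q) := h1
        _ ≤ z ^ 46 + 4704 * C * z ^ 2 * (8 * z ^ 44 + z ^ 44) := by
            have h7 : 8 * z ^ 48 / q + q ≤ 8 * z ^ 44 + z ^ 44 := by linarith
            have h8 := mul_le_mul_of_nonneg_left h7 (by positivity : (0 : ℝ) ≤ 4704 * C * z ^ 2)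
            linarith
        _ = _ := by ring
    calc z * (Sg * (q : ℝ) ^ 2) ≤ z * ((1 + 42336 * C) * z ^ 46) :=
          mul_le_mul_of_nonneg_left h6 (by linarith)
      _ = (1 + 42336 * C) * z ^ 47 := by ring
      _ < z * z ^ 47 := mul_lt_mul_of_pos_right hzC (by positivity)
      _ = z ^ 48 := by ring
  -- conclusion
  have hK : KT T = ρ * ((ST T).card / 2) / (2 * T) := by
    rw [hρ]; exact ratio_aux _ _ _ (by linarith) hSpos
  have hρm : ρ ^ (m + m) ≤ z := by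
    have e : ρ ^ (m + m) = (ρ ^ 2) ^ m := by rw [← pow_mul]; congr 1; ring
    rw [e, hz, hn]
    calc (ρ ^ 2) ^ m ≤ ((2 : ℝ) ^ (2 * r)) ^ m := pow_le_pow_left₀ (by positivity) hρ2 m
      _ = _ := by rw [← pow_mul]
  rw [hK, div_pow, mul_pow, h2Tr]
  have hSm : (0 : ℝ) < (((ST T).card : ℝ) / 2) ^ (m + m) := pow_pos (half_pos hSpos) _
  calc ρ ^ (m + m) * (((ST T).card : ℝ) / 2) ^ (m + m) / z ^ 48 * Sg * (q : ℝ) ^ 2
      = (ρ ^ (m + m) * (Sg * (q : ℝ) ^ 2)) / z ^ 48 * (((ST T).card : ℝ) / 2) ^ (m + m) := by ring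
    _ ≤ (z * (Sg * (q : ℝ) ^ 2)) / z ^ 48 * (((ST T).card : ℝ) / 2) ^ (m + m) := by
        apply mul_le_mul_of_nonneg_right _ hSm.le
        apply div_le_div_of_nonneg_right _ (by positivity)
        exact mul_le_mul_of_nonneg_right hρm (by positivity)
    _ < 1 * (((ST T).card : ℝ) / 2) ^ (m + m) := by
        apply mul_lt_mul_of_pos_right _ hSm
        rw [div_lt_one (by positivity)]
        exact hmain
    _ = _ := one_mul _

end Pool.Agent.Lib.MP_a22f36
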