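import Mathlib

set_option autoImplicit false
set_option linter.unusedSectionVars false

/-!
# Functions on finite products: pure and independent coordinates
-/

namespace Pool.Agent.Lib.MP_a22f36

section Prod

variable {ι : Type} [DecidableEq ι] [Fintype ι] {V : ι → Type} [∀ i, Fintype (V i)]

/-- `f` sums to zero over the coordinate `i`. -/
def PureAt (f : (∀ i, V i) → ℝ) (i : ι) : Prop :=
  ∀ x, ∑ v : V i, f (Function.update x i v) = 0

/-- `f` does not depend on the coordinate `i`. -/
def IndepAt (f : (∀ i, V i) → ℝ) (i : ι) : Prop :=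
  ∀ x v, f (Function.update x i v) = f x

/-- Average over the coordinate `i`. -/
noncomputable def avg (f : (∀ i, V i) → ℝ) (i : ι) : (∀ i, V i) → ℝ :=
  fun x => (∑ v : V i, f (Function.update x i v)) / Fintype.card (V i)

lemma sum_update (i : ι) (F : (∀ i, V i) → ℝ) :
    ∑ x, ∑ v : V i, F (Function.update x i v) = Fintype.card (V i) * ∑ x, F x := by
  have h1 : ∑ x, ∑ v : V i, F (Function.update x i v) =
      ∑ z : (∀ i, V i) × V i, F (Function.update z.1 i z.2) := by
    rw [Fintype.sum_prod_type]
  have h2 : (Fintype.card (V i) : ℝ) * ∑ x, F x = ∑ z : (∀ i, V i) × V i, F z.1 := by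
    rw [Fintype.sum_prod_type, Finset.mul_sum]
    refine Finset.sum_congr rfl fun x _ => ?_
    simp
  rw [h1, h2]
  let e : (∀ i, V i) × V i → (∀ i, V i) × V i := fun z => (Function.update z.1 i z.2, z.1 i)
  have he : Function.Involutive e := by
    intro z
    simp [e]
  exact Fintype.sum_equiv he.toPerm _ _ (fun z => rfl)

lemma inner_indep_pure (i : ι) [Nonempty (V i)] (a b : (∀ i, V i) → ℝ) (ha : IndepAt a i)
    (hb : PureAt b i) : ∑ x, a x * b x = 0 := by
  have h := sum_update i (fun x => a x * b x)
  have h2 : ∑ x, ∑ v : V i, a (Function.update x i v) * b (Function.update x i v) = 0 := by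
    apply Finset.sum_eq_zero
    intro x _
    have : ∀ v : V i, a (Function.update x i v) * b (Function.update x i v)
        = a x * b (Function.update x i v) := fun v => by rw [ha x v]
    simp only [this]
    rw [← Finset.mul_sum, hb x, mul_zero]
  rw [h2] at h
  have hc : (Fintype.card (V i) : ℝ) ≠ 0 := by
    have := Fintype.card_pos (α := V i)
    positivity
  exact (mul_eq_zero.mp h.symm).resolve_left hc

lemma avg_indep (f : (∀ i, V i) → ℝ) (i : ι) : IndepAt (avg f i) i := by
  intro x v
  simp [avg]

lemma sub_avg_pure (f : (∀ i, V i) → ℝ) (i : ι) [Nonempty (V i)] :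
    PureAt (fun x => f x - avg f i x) i := by
  intro x
  have hc : (Fintype.card (V i) : ℝ) ≠ 0 := by
    have := Fintype.card_pos (α := V i)
    positivity
  simp only [Finset.sum_sub_distrib]
  have : ∀ v : V i, avg f i (Function.update x i v) = avg f i x := fun v => avg_indep f i x v
  simp only [this, Finset.sum_const, Finset.card_univ, nsmul_eq_mul]
  unfold avg
  field_simp
  ring

lemma sum_avg (f : (∀ i, V i) → ℝ) (i : ι) [Nonempty (V i)] : ∑ x, avg f i x = ∑ x, f x := by
  have hc : (Fintype.card (V i) : ℝ) ≠ 0 := by
    have := Fintype.card_pos (α := V i)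
    positivity
  unfold avg
  rw [← Finset.sum_div, sum_update]
  field_simp

lemma avg_pure (f : (∀ i, V i) → ℝ) (i j : ι) (hij : i ≠ j) (h : PureAt f j) :
    PureAt (avg f i) j := by
  intro x
  unfold avg
  rw [← Finset.sum_div, Finset.sum_comm]
  have : ∀ w : V i, ∑ v : V j, f (Function.update (Function.update x j v) i w) = 0 := by
    intro w
    have := h (Function.update x i w)
    rw [← this]
    refine Finset.sum_congr rfl fun v _ => ?_
    rw [Function.update_comm hij]
  simp [this]

lemma avg_indep_of_indep (f : (∀ i, V i) → ℝ) (i j : ι) (hij : i ≠ j) (h : IndepAt f j) :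
    IndepAt (avg f i) j := by
  intro x v
  unfold avg
  congr 1
  refine Finset.sum_congr rfl fun w _ => ?_
  rw [← Function.update_comm hij, h]

lemma sub_pure (f g : (∀ i, V i) → ℝ) (i : ι) (hf : PureAt f i) (hg : PureAt g i) :
    PureAt (fun x => f x - g x) i := by
  intro x
  simp only [Finset.sum_sub_distrib, hf x, hg x, sub_zero]

lemma sub_indep (f g : (∀ i, V i) → ℝ) (i : ι) (hf : IndepAt f i) (hg : IndepAt g i) :
    IndepAt (fun x => f x - g x) i := by
  intro x v
  simp only [hf x v, hg x v]

lemma pyth (i : ι) [Nonempty (V i)] (a b : (∀ i, V i) → ℝ) (ha : IndepAt a i)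
    (hb : PureAt b i) : ∑ x, (a x + b x) ^ 2 = ∑ x, a x ^ 2 + ∑ x, b x ^ 2 := by
  have h := inner_indep_pure i a b ha hb
  have : ∀ x, (a x + b x) ^ 2 = a x ^ 2 + b x ^ 2 + 2 * (a x * b x) := fun x => by ring
  simp only [this, Finset.sum_add_distrib, ← Finset.mul_sum, h]
  ring

variable {G : ι → Type} [∀ i, Group (G i)] [∀ i, MulAction (G i) (V i)]

omit [Fintype ι] [∀ i, Fintype (V i)] in
lemma smul_update (g : ∀ i, G i) (x : ∀ i, V i) (i : ι) (v : V i) :
    g • (Function.update x i v) = Function.update (g • x) i (g i • v) := by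
  funext j
  by_cases h : j = i
  · subst h; simp
  · simp [Function.update_of_ne h]

lemma comp_pure (f : (∀ i, V i) → ℝ) (i : ι) (g : ∀ i, G i) (h : PureAt f i) :
    PureAt (fun x => f (g • x)) i := by
  intro x
  simp only [smul_update]
  rw [← h (g • x)]
  exact Fintype.sum_equiv (MulAction.toPerm (g i)) _ _ (fun v => rfl)

lemma comp_indep (f : (∀ i, V i) → ℝ) (i : ι) (g : ∀ i, G i) (h : IndepAt f i) :
    IndepAt (fun x => f (g • x)) i := by
  intro x v
  simp only [smul_update]
  rw [h]

/-- squared displacement -/
def disp (g : ∀ i, G i) (f : (∀ i, V i) → ℝ) : ℝ := ∑ x, (f (g • x) - f x) ^ 2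

lemma disp_add (i : ι) [Nonempty (V i)] (g : ∀ i, G i) (a b : (∀ i, V i) → ℝ) (ha : IndepAt a i)
    (hb : PureAt b i) : disp g (fun x => a x + b x) = disp g a + disp g b := by
  unfold disp
  rw [← pyth i _ _ (sub_indep _ _ i (comp_indep a i g ha) ha) (sub_pure _ _ i (comp_pure b i g hb) hb)]
  refine Finset.sum_congr rfl fun x _ => ?_
  ring

/-- The decomposition lemma. -/
lemma decomp [∀ i, Nonempty (V i)] (g h : ∀ i, G i) (c : ℝ)
    (H : ∀ (D : Finset ι) (f : (∀ i, V i) → ℝ), D.Nonempty → (∀ i ∈ D, PureAt f i) →
      (∀ i ∉ D, IndepAt f i) → c * ∑ x, f x ^ 2 ≤ disp g f + disp h f)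
    (f : (∀ i, V i) → ℝ) (hf : ∑ x, f x = 0) : c * ∑ x, f x ^ 2 ≤ disp g f + disp h f := by
  have key : ∀ n : ℕ, ∀ (D E : Finset ι) (f : (∀ i, V i) → ℝ), (Finset.univ \ (D ∪ E)).card = n →
      (∀ i ∈ D, PureAt f i) → (∀ i ∈ E, IndepAt f i) → (D.Nonempty ∨ ∑ x, f x = 0) →
      c * ∑ x, f x ^ 2 ≤ disp g f + disp h f := by
    intro n
    induction n with
    | zero =>
      intro D E f hn hD hE hor
      have hcov : ∀ i, i ∉ D → i ∈ E := by
        intro i hi
        by_contra hE'
        have : i ∈ Finset.univ \ (D ∪ E) := by simp [hi, hE']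
        rw [Finset.card_eq_zero] at hn
        rw [hn] at this
        simp at this
      rcases D.eq_empty_or_nonempty with hD0 | hD0
      · -- constant function
        have hall : ∀ i, IndepAt f i := fun i => hE i (hcov i (by simp [hD0]))
        have hconst : ∀ x y, f x = f y := by
          intro x y
          have : ∀ s : Finset ι, f (fun i => if i ∈ s then y i else x i) = f x := by
            intro s
            induction s using Finset.induction_on with
            | empty => simp
            | insert a s ha ih =>
              rw [← ih]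
              have e : (fun i => if i ∈ insert a s then y i else x i) =
                  Function.update (fun i => if i ∈ s then y i else x i) a (y a) := by
                funext j
                by_cases hj : j = a
                · subst hj; simp
                · simp [hj]
              rw [e, hall a]
          have h2 := this Finset.univ
          simp only [Finset.mem_univ, if_true] at h2
          exact h2.symm
        have hs : ∑ x, f x = 0 := by
          rcases hor with h | h
          · rw [hD0] at h; simp at h
          · exact h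
        have hz : ∀ x, f x = 0 := by
          intro x
          have : ∑ y, f y = Fintype.card (∀ i, V i) * f x := by
            rw [Finset.sum_congr rfl (fun y _ => hconst y x)]
            simp
          rw [hs] at this
          have hc : (Fintype.card (∀ i, V i) : ℝ) ≠ 0 := by
            have : 0 < Fintype.card (∀ i, V i) := Fintype.card_pos
            exact_mod_cast this.ne'
          exact (mul_eq_zero.mp this.symm).resolve_left hc
        have h0 : c * ∑ x, f x ^ 2 = 0 := by simp [hz]
        rw [h0]
        unfold disp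
        positivity
      · exact H D f hD0 hD (fun i hi => hE i (hcov i hi))
    | succ n ih =>
      intro D E f hn hD hE hor
      have hne : (Finset.univ \ (D ∪ E)).Nonempty := by
        rw [← Finset.card_pos]; omega
      obtain ⟨i, hi⟩ := hne
      simp only [Finset.mem_sdiff, Finset.mem_univ, Finset.mem_union, not_or, true_and] at hi
      obtain ⟨hiD, hiE⟩ := hi
      have hdecomp : f = fun x => avg f i x + (f x - avg f i x) := by funext x; ring
      have hcard : ∀ D' E' : Finset ι, D' ∪ E' = insert i (D ∪ E) →
          (Finset.univ \ (D' ∪ E')).card = n := by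
        intro D' E' h'
        rw [h', Finset.sdiff_insert, Finset.card_erase_of_mem (by simp [hiD, hiE]), hn]
        rfl
      have h1 := ih D (insert i E) (avg f i) (hcard _ _ (by rw [Finset.union_insert]))
        (fun j hj => avg_pure f i j (fun e => hiD (e ▸ hj)) (hD j hj))
        (fun j hj => by
          rcases Finset.mem_insert.mp hj with rfl | hj
          · exact avg_indep f j
          · exact avg_indep_of_indep f i j (fun e => hiE (e ▸ hj)) (hE j hj))
        (by rw [sum_avg]; exact hor)
      have h2 := ih (insert i D) E (fun x => f x - avg f i x)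
        (hcard _ _ (by rw [Finset.insert_union]))
        (fun j hj => by
          rcases Finset.mem_insert.mp hj with rfl | hj
          · exact sub_avg_pure f j
          · exact sub_pure _ _ j (hD j hj) (avg_pure f i j (fun e => hiD (e ▸ hj)) (hD j hj)))
        (fun j hj => sub_indep _ _ j (hE j hj)
          (avg_indep_of_indep f i j (fun e => hiE (e ▸ hj)) (hE j hj)))
        (Or.inl (Finset.insert_nonempty _ _))
      have e1 := pyth i (avg f i) (fun x => f x - avg f i x) (avg_indep f i) (sub_avg_pure f i)
      have e2 := disp_add i g (avg f i) (fun x => f x - avg f i x) (avg_indep f i) (sub_avg_pure f i)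
      have e3 := disp_add i h (avg f i) (fun x => f x - avg f i x) (avg_indep f i) (sub_avg_pure f i)
      rw [← hdecomp] at e2 e3
      have e1' : ∑ x, f x ^ 2 = ∑ x, avg f i x ^ 2 + ∑ x, (f x - avg f i x) ^ 2 := by
        rw [← e1]
        refine Finset.sum_congr rfl fun x _ => ?_
        ring
      rw [e1', e2, e3]
      linarith
  exact key _ ∅ ∅ f rfl (by simp) (by simp) (Or.inr hf)

/-- functions independent off `D` only see the coordinates in `D`. -/
lemma eq_of_agree (D : Finset ι) (f : (∀ i, V i) → ℝ) (hf : ∀ i ∉ D, IndepAt f i)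
    (x y : ∀ i, V i) (hxy : ∀ i ∈ D, x i = y i) : f x = f y := by
  have key : ∀ s : Finset ι, f (fun i => if i ∈ s then y i else x i) = f x := by
    intro s
    induction s using Finset.induction_on with
    | empty => simp
    | insert a s ha ih =>
      rw [← ih]
      have e : (fun i => if i ∈ insert a s then y i else x i) =
          Function.update (fun i => if i ∈ s then y i else x i) a (y a) := by
        funext j
        by_cases hj : j = a
        · subst hj; simp
        · simp [hj]
      rw [e]
      by_cases haD : a ∈ D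
      · have : y a = (fun i => if i ∈ s then y i else x i) a := by
          simp [ha, hxy a haD]
        rw [this, Function.update_eq_self]
      · rw [hf a haD]
  have h2 := key Finset.univ
  simp only [Finset.mem_univ, if_true] at h2
  exact h2.symm

lemma sum_restrict (D : Finset ι) (F : (∀ i : D, V i) → ℝ) :
    ∑ x : (∀ i, V i), F (fun i => x i) =
      Fintype.card (∀ i : {i // i ∉ D}, V i) * ∑ y, F y := by
  have h1 : ∑ x : (∀ i, V i), F (fun i => x i) =
      ∑ z : (∀ i : {i // i ∈ D}, V i) × (∀ i : {i // ¬ i ∈ D}, V i), F z.1 :=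
    Fintype.sum_equiv (Equiv.piEquivPiSubtypeProd (fun i => i ∈ D) V) _ _ (fun x => rfl)
  rw [h1, Fintype.sum_prod_type, Finset.mul_sum]
  refine Finset.sum_congr rfl fun x _ => ?_
  simp

/-- The decomposition lemma, in terms of functions on sub-products. -/
lemma decomp_sub [∀ i, Nonempty (V i)] (g h : ∀ i, G i) (c : ℝ)
    (H : ∀ (D : Finset ι), D.Nonempty → ∀ f : (∀ i : D, V i) → ℝ, (∀ i, PureAt f i) →
      c * ∑ x, f x ^ 2 ≤ disp (fun i : D => g i) f + disp (fun i : D => h i) f)
    (f : (∀ i, V i) → ℝ) (hf : ∑ x, f x = 0) : c * ∑ x, f x ^ 2 ≤ disp g f + disp h f := by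
  refine decomp g h c ?_ f hf
  intro D f hD hp hi
  let x0 : ∀ i, V i := fun i => Classical.arbitrary _
  let ext : (∀ i : D, V i) → (∀ i, V i) := fun y i => if h : i ∈ D then y ⟨i, h⟩ else x0 i
  let fD : (∀ i : D, V i) → ℝ := fun y => f (ext y)
  have hfD : ∀ x : (∀ i, V i), f x = fD (fun i => x i) := by
    intro x
    apply eq_of_agree D f hi
    intro i hi'
    simp [ext, hi']
  have hpure : ∀ i : D, PureAt fD i := by
    rintro ⟨i, hiD⟩ y
    rw [← hp i hiD (ext y)]
    refine Finset.sum_congr rfl fun v _ => ?_
    change f (ext _) = _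
    congr 1
    funext j
    by_cases hj : j = i
    · subst hj
      simp [ext, hiD]
    · by_cases hjD : j ∈ D
      · simp [ext, hj, hjD]
      · simp [ext, hj, hjD]
  have h1 : ∑ x, f x ^ 2 = Fintype.card (∀ i : {i // i ∉ D}, V i) * ∑ y, fD y ^ 2 := by
    rw [← sum_restrict D (fun y => fD y ^ 2)]
    refine Finset.sum_congr rfl fun x _ => ?_
    rw [hfD x]
  have h2 : ∀ g : ∀ i, G i, disp g f =
      Fintype.card (∀ i : {i // i ∉ D}, V i) * disp (fun i : D => g i) fD := by
    intro g
    unfold disp
    rw [← sum_restrict D (fun y => (fD ((fun i : D => g i) • y) - fD y) ^ 2)]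
    refine Finset.sum_congr rfl fun x _ => ?_
    rw [hfD x, hfD (g • x)]
    rfl
  have h3 := H D hD fD hpure
  rw [h1, h2, h2]
  have h4 : (0 : ℝ) ≤ Fintype.card (∀ i : {i // i ∉ D}, V i) := by positivity
  nlinarith [mul_le_mul_of_nonneg_left h3 h4]

end Prod

end Pool.Agent.Lib.MP_a22f36
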