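import Mathlib
import Pool.Agent.Lib.MP_a22f36.Pure

set_option autoImplicit false
set_option linter.unusedSectionVars false

/-!
# A Schur-type orthogonality relation for pure functions under 2-transitive actions
-/

namespace Pool.Agent.Lib.MP_a22f36

section Schur

variable {ι : Type} [DecidableEq ι] [Fintype ι] {V : ι → Type} [∀ i, Fintype (V i)]
  [∀ i, DecidableEq (V i)]

/-- Reduction of the sum of `a y * f y` to the diagonal. -/
lemma sum_diag (n : ι → ℝ) (hn : ∀ i, 0 < n i) (x : ∀ i, V i) (a f : (∀ i, V i) → ℝ)
    (hf : ∀ i, PureAt f i)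
    (ha : ∀ i y, y i ≠ x i → n i * a y = - a (Function.update y i (x i))) :
    ∀ s : Finset ι, ∑ y, a y * f y =
      (∏ i ∈ s, (1 + 1 / n i)) * ∑ y, a y * (if ∀ j ∈ s, y j = x j then f y else 0) := by
  intro s
  induction s using Finset.induction_on with
  | empty => simp
  | insert i s hi ih =>
    rw [ih, Finset.prod_insert hi, mul_comm (1 + 1 / n i), mul_assoc]
    congr 1
    set F : (∀ i, V i) → ℝ := fun y => if ∀ j ∈ s, y j = x j then f y else 0 with hF
    have hFp : PureAt F i := by
      intro y
      have e : ∀ v : V i, (∀ j ∈ s, Function.update y i v j = x j) ↔ (∀ j ∈ s, y j = x j) := by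
        intro v
        constructor
        · intro h j hj
          have := h j hj
          rwa [Function.update_of_ne (fun e : j = i => hi (e ▸ hj))] at this
        · intro h j hj
          rw [Function.update_of_ne (fun e : j = i => hi (e ▸ hj))]
          exact h j hj
      simp only [hF, e]
      by_cases h : ∀ j ∈ s, y j = x j
      · simp only [if_pos h]
        exact hf i y
      · simp only [if_neg h, Finset.sum_const_zero]
    have hF2 : ∀ y, (if ∀ j ∈ insert i s, y j = x j then f y else 0) =
        (if y i = x i then F y else 0) := by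
      intro y
      simp only [hF, Finset.forall_mem_insert]
      by_cases h1 : y i = x i <;> by_cases h2 : ∀ j ∈ s, y j = x j <;> simp [h1, h2]
    simp only [hF2]
    have : Nonempty (V i) := ⟨x i⟩
    have hind : IndepAt (fun y => a (Function.update y i (x i))) i := by
      intro y v
      simp
    have h0 := inner_indep_pure i _ F hind hFp
    have hpt : ∀ y, a y * F y = (1 + 1 / n i) * (a y * (if y i = x i then F y else 0)) -
        (1 / n i) * (a (Function.update y i (x i)) * F y) := by
      intro y
      have hni := (hn i).ne'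
      by_cases h : y i = x i
      · rw [← h, Function.update_eq_self]
        simp only [if_true]
        ring
      · simp only [h, if_false, mul_zero, zero_sub]
        have := ha i y h
        field_simp
        linear_combination F y * this
    change ∑ y, a y * F y = _
    calc ∑ y, a y * F y = ∑ y, ((1 + 1 / n i) * (a y * (if y i = x i then F y else 0)) -
        (1 / n i) * (a (Function.update y i (x i)) * F y)) :=
          Finset.sum_congr rfl fun y _ => hpt y
      _ = _ := by
          rw [Finset.sum_sub_distrib, ← Finset.mul_sum, ← Finset.mul_sum, h0, mul_zero, sub_zero]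

variable {G : ι → Type} [∀ i, Group (G i)] [∀ i, MulAction (G i) (V i)] [∀ i, Fintype (G i)]

/-- The Schur-type relation. -/
theorem schur (n : ι → ℝ) (hn : ∀ i, 0 < n i) (hcard : ∀ i, (Fintype.card (V i) : ℝ) = n i + 1)
    (htrans : ∀ i (a b : V i), ∃ g : G i, g • a = b)
    (htwo : ∀ i (a b c : V i), b ≠ a → c ≠ a → ∃ g : G i, g • a = a ∧ g • b = c)
    (f : (∀ i, V i) → ℝ) (hf : ∀ i, PureAt f i) :
    (∏ i, n i) * ∑ g : (∀ i, G i), (∑ x, f (g • x) * f x) ^ 2 =
      Fintype.card (∀ i, G i) * (∑ x, f x ^ 2) ^ 2 := by
  set A : (∀ i, V i) → (∀ i, V i) → ℝ := fun x y => ∑ g : (∀ i, G i), f (g • x) * f (g • y) with hA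
  have hinv : ∀ (h : ∀ i, G i) x y, A (h • x) (h • y) = A x y := by
    intro h x y
    simp only [hA]
    refine Fintype.sum_equiv (Equiv.mulRight h) _ _ fun g => ?_
    simp [mul_smul]
  have hpure : ∀ x i y, ∑ v : V i, A x (Function.update y i v) = 0 := by
    intro x i y
    simp only [hA]
    rw [Finset.sum_comm]
    apply Finset.sum_eq_zero
    intro g _
    rw [← Finset.mul_sum]
    have := comp_pure f i g (hf i) y
    rw [this, mul_zero]
  have hswap : ∀ x i y v, y i ≠ x i → v ≠ x i → A x (Function.update y i v) = A x y := by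
    intro x i y v hy hv
    obtain ⟨g, h1, h2⟩ := htwo i (x i) v (y i) hv hy
    set h : ∀ i, G i := Function.update 1 i g with hh
    have e1 : h • x = x := by
      funext j
      by_cases hj : j = i
      · subst hj; simp [hh, h1]
      · simp [hh, hj]
    have e2 : h • (Function.update y i v) = y := by
      funext j
      by_cases hj : j = i
      · subst hj; simp [hh, h2]
      · simp [hh, hj]
    rw [← hinv h x (Function.update y i v), e1, e2]
  have hval : ∀ x i y, y i ≠ x i → n i * A x y = - A x (Function.update y i (x i)) := by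
    intro x i y hy
    have h1 := hpure x i y
    rw [← Finset.sum_erase_add _ _ (Finset.mem_univ (x i))] at h1
    have h2 : ∑ v ∈ Finset.univ.erase (x i), A x (Function.update y i v) = n i * A x y := by
      rw [Finset.sum_congr rfl (fun v hv => hswap x i y v hy (Finset.ne_of_mem_erase hv))]
      rw [Finset.sum_const, Finset.card_erase_of_mem (Finset.mem_univ _), Finset.card_univ,
        nsmul_eq_mul]
      have : ((Fintype.card (V i) - 1 : ℕ) : ℝ) = n i := by
        have h3 : 1 ≤ Fintype.card (V i) := by
          have : Nonempty (V i) := ⟨x i⟩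
          exact Fintype.card_pos
        rw [Nat.cast_sub h3, hcard i]; simp
      rw [this]
    rw [h2] at h1
    linarith
  have hdiag : ∀ x y, A x x = A y y := by
    intro x y
    choose g hg using fun i => htrans i (x i) (y i)
    have : (fun i => g i : ∀ i, G i) • x = y := by
      funext i
      exact hg i
    rw [← this, hinv]
  have hcardV : (Fintype.card (∀ i, V i) : ℝ) = ∏ i, (n i + 1) := by
    rw [Fintype.card_pi]
    push_cast
    exact Finset.prod_congr rfl fun i _ => hcard i
  have hsumA : ∑ x, A x x = Fintype.card (∀ i, G i) * ∑ x, f x ^ 2 := by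
    simp only [hA]
    rw [Finset.sum_comm]
    have : ∀ g : (∀ i, G i), ∑ x, f (g • x) * f (g • x) = ∑ x, f x ^ 2 := by
      intro g
      refine Fintype.sum_equiv (MulAction.toPerm g) _ _ fun x => ?_
      simp [sq]
    simp only [this]
    simp
  have hAx : ∀ x, (∏ i, (n i + 1)) * A x x = Fintype.card (∀ i, G i) * ∑ x, f x ^ 2 := by
    intro x
    rw [← hsumA, Finset.sum_congr rfl (fun y _ => hdiag y x)]
    simp only [Finset.sum_const, Finset.card_univ, nsmul_eq_mul]
    rw [hcardV]
  have hT : ∀ x, ∑ y, A x y * f y = (∏ i, (1 + 1 / n i)) * (A x x * f x) := by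
    intro x
    rw [sum_diag n hn x (A x) f hf (hval x) Finset.univ]
    congr 1
    rw [Finset.sum_eq_single x]
    · simp
    · intro y _ hy
      have : ¬ ∀ j ∈ (Finset.univ : Finset ι), y j = x j := by
        intro h
        exact hy (funext fun j => h j (Finset.mem_univ j))
      rw [if_neg this, mul_zero]
    · intro h; exact absurd (Finset.mem_univ x) h
  have hprod : (∏ i, n i) * ∏ i, (1 + 1 / n i) = ∏ i, (n i + 1) := by
    rw [← Finset.prod_mul_distrib]
    refine Finset.prod_congr rfl fun i _ => ?_
    have := (hn i).ne'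
    field_simp
  have hexp : ∑ g : (∀ i, G i), (∑ x, f (g • x) * f x) ^ 2 = ∑ x, f x * ∑ y, A x y * f y := by
    have : ∀ g : (∀ i, G i), (∑ x, f (g • x) * f x) ^ 2 =
        ∑ x, ∑ y, f x * (f (g • x) * f (g • y) * f y) := by
      intro g
      rw [sq, Finset.sum_mul_sum]
      refine Finset.sum_congr rfl fun x _ => Finset.sum_congr rfl fun y _ => ?_
      ring
    simp only [this]
    rw [Finset.sum_comm]
    refine Finset.sum_congr rfl fun x _ => ?_
    rw [Finset.sum_comm, Finset.mul_sum]
    refine Finset.sum_congr rfl fun y _ => ?_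
    rw [← Finset.mul_sum, hA, Finset.sum_mul]
  rw [hexp, Finset.mul_sum]
  have : ∀ x, (∏ i, n i) * (f x * ∑ y, A x y * f y) =
      Fintype.card (∀ i, G i) * (∑ x, f x ^ 2) * f x ^ 2 := by
    intro x
    rw [hT x, ← hAx x, ← hprod]
    ring
  simp only [this]
  rw [← Finset.mul_sum]
  ring

end Schur

end Pool.Agent.Lib.MP_a22f36
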