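import Mathlib
import Pool.Agent.Lib.MP_a22f36.Schur
import Pool.Agent.Lib.MP_a22f36.Numerics

set_option autoImplicit false
set_option linter.unusedSectionVars false

/-!
# The uniform spectral gap
-/

namespace Pool.Agent.Lib.MP_a22f36

open Matrix

section Gen

variable {G V : Type} [Group G] [Fintype V] [MulAction G V]

/-- squared displacement -/
def dsp (g : G) (f : V → ℝ) : ℝ := ∑ x, (f (g • x) - f x) ^ 2

lemma dsp_nonneg (g : G) (f : V → ℝ) : 0 ≤ dsp g f := Finset.sum_nonneg fun _ _ => sq_nonneg _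

lemma dsp_one (f : V → ℝ) : dsp (1 : G) f = 0 := by simp [dsp]

lemma dsp_mul (g h : G) (f : V → ℝ) : dsp (g * h) f ≤ 2 * dsp g f + 2 * dsp h f := by
  have h1 : dsp g f = ∑ x, (f (g • (h • x)) - f (h • x)) ^ 2 := by
    unfold dsp
    exact (Fintype.sum_equiv (MulAction.toPerm h) _ _ fun x => rfl).symm
  rw [h1]
  unfold dsp
  rw [Finset.mul_sum, Finset.mul_sum, ← Finset.sum_add_distrib]
  apply Finset.sum_le_sum
  intro x _
  rw [mul_smul]
  nlinarith [sq_nonneg ((f (g • h • x) - f (h • x)) - (f (h • x) - f x))]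

lemma dsp_inv (g : G) (f : V → ℝ) : dsp g⁻¹ f = dsp g f := by
  unfold dsp
  refine Fintype.sum_equiv (MulAction.toPerm g⁻¹) _ _ fun x => ?_
  simp only [MulAction.toPerm_apply, smul_inv_smul]
  ring

end Gen

/-- `(X, Y) ↦ (X, X + Y)` -/
def Lm : Gam := (⟨!![1, 0; 1, 1], by simp [Matrix.det_fin_two_of]⟩ : Matrix.SpecialLinearGroup (Fin 2) ℤ)

/-- `(X, Y) ↦ (X + Y, Y)` -/
def Rm : Gam := (⟨!![1, 1; 0, 1], by simp [Matrix.det_fin_two_of]⟩ : Matrix.SpecialLinearGroup (Fin 2) ℤ)

lemma closure_LR : Subgroup.closure {Lm, Rm} = (⊤ : Subgroup Gam) := by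
  rw [eq_top_iff, ← SpecialLinearGroup.SL2Z_generators, Subgroup.closure_le]
  have hL : Lm ∈ Subgroup.closure {Lm, Rm} := Subgroup.subset_closure (by simp)
  have hR : Rm ∈ Subgroup.closure {Lm, Rm} := Subgroup.subset_closure (by simp)
  have eT : ModularGroup.T = Rm := rfl
  have eS : ModularGroup.S = Rm⁻¹ * Lm * Rm⁻¹ := by
    decide
  rintro g hg
  rcases hg with rfl | rfl
  · rw [eS]
    exact mul_mem (mul_mem (inv_mem hR) hL) (inv_mem hR)
  · rw [eT]; exact hR

/-- displacement of any element is controlled by the displacement of the generators. -/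
lemma word_length (g : Gam) : ∃ l : ℝ, 0 ≤ l ∧ ∀ (G V : Type) [Group G] [Fintype V] [MulAction G V]
    (π : Gam →* G) (f : V → ℝ), dsp (π g) f ≤ l * (dsp (π Lm) f + dsp (π Rm) f) := by
  have hg : g ∈ Subgroup.closure {Lm, Rm} := by rw [closure_LR]; trivial
  induction hg using Subgroup.closure_induction with
  | mem x hx =>
    refine ⟨1, zero_le_one, ?_⟩
    intro G V _ _ _ π f
    rcases hx with rfl | rfl
    · have := dsp_nonneg (π Rm) f; linarith
    · have := dsp_nonneg (π Lm) f; linarith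
  | one =>
    refine ⟨0, le_rfl, ?_⟩
    intro G V _ _ _ π f
    rw [map_one, dsp_one]; simp
  | mul x y _ _ hx hy =>
    obtain ⟨l1, h1, H1⟩ := hx
    obtain ⟨l2, h2, H2⟩ := hy
    refine ⟨2 * l1 + 2 * l2, by positivity, ?_⟩
    intro G V _ _ _ π f
    rw [map_mul]
    have := dsp_mul (π x) (π y) f
    have := H1 G V π f
    have := H2 G V π f
    nlinarith
  | inv x _ hx =>
    obtain ⟨l1, h1, H1⟩ := hx
    refine ⟨l1, h1, ?_⟩
    intro G V _ _ _ π f
    rw [map_inv, dsp_inv]
    exact H1 G V π f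

/-- points of the projective line over `ZMod q` -/
abbrev Pt (q : ℕ) [Fact q.Prime] : Type := Projectivization (ZMod q) (Fin 2 → ZMod q)

/-- `SL(2, ZMod q)` -/
abbrev SLp (q : ℕ) : Type := Matrix.SpecialLinearGroup (Fin 2) (ZMod q)

noncomputable instance instFintypePt (q : ℕ) [Fact q.Prime] : Fintype (Pt q) := Fintype.ofFinite _

lemma card_Pt (q : ℕ) [Fact q.Prime] : Fintype.card (Pt q) = q + 1 := by
  rw [← Nat.card_eq_fintype_card, Projectivization.card_of_finrank_two _ _ (by simp)]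
  simp

instance instFintypeSLp (q : ℕ) [Fact q.Prime] : Fintype (SLp q) := by
  unfold SLp; infer_instance

lemma card_SLp (q : ℕ) [Fact q.Prime] : Fintype.card (SLp q) ≤ q ^ 3 := by
  classical
  let e : SLp q → ZMod q × ZMod q × ZMod q := fun g =>
    if g.1 0 0 = 0 then (0, g.1 0 1, g.1 1 1) else (g.1 0 0, g.1 0 1, g.1 1 0)
  have he : Function.Injective e := by
    intro g h hgh
    have dg : g.1 0 0 * g.1 1 1 - g.1 0 1 * g.1 1 0 = 1 := by
      have := g.2; rwa [Matrix.det_fin_two] at this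
    have dh : h.1 0 0 * h.1 1 1 - h.1 0 1 * h.1 1 0 = 1 := by
      have := h.2; rwa [Matrix.det_fin_two] at this
    simp only [e] at hgh
    have hext : g.1 0 0 = h.1 0 0 → g.1 0 1 = h.1 0 1 → g.1 1 0 = h.1 1 0 → g.1 1 1 = h.1 1 1 →
        g = h := by
      intro h1 h2 h3 h4
      apply Subtype.ext
      ext i j
      fin_cases i <;> fin_cases j <;> assumption
    by_cases h0 : g.1 0 0 = 0
    · by_cases h0' : h.1 0 0 = 0
      · rw [if_pos h0, if_pos h0'] at hgh
        simp only [Prod.mk.injEq, true_and] at hgh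
        obtain ⟨h1, h2⟩ := hgh
        rw [h0, zero_mul, zero_sub] at dg
        rw [h0', zero_mul, zero_sub, ← h1] at dh
        have hb : g.1 0 1 ≠ 0 := by
          intro hb; rw [hb] at dg; simp at dg
        have h3 : g.1 1 0 = h.1 1 0 := by
          have : g.1 0 1 * g.1 1 0 = g.1 0 1 * h.1 1 0 := by
            linear_combination dh - dg
          exact mul_left_cancel₀ hb this
        exact hext (h0.trans h0'.symm) h1 h3 h2
      · rw [if_pos h0, if_neg h0'] at hgh
        simp only [Prod.mk.injEq] at hgh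
        exact absurd hgh.1.symm h0'
    · by_cases h0' : h.1 0 0 = 0
      · rw [if_neg h0, if_pos h0'] at hgh
        simp only [Prod.mk.injEq] at hgh
        exact absurd hgh.1 h0
      · rw [if_neg h0, if_neg h0'] at hgh
        simp only [Prod.mk.injEq] at hgh
        obtain ⟨h1, h2, h3⟩ := hgh
        rw [← h1, ← h2, ← h3] at dh
        have h4 : g.1 1 1 = h.1 1 1 := by
          have : g.1 0 0 * g.1 1 1 = g.1 0 0 * h.1 1 1 := by
            linear_combination dg - dh
          exact mul_left_cancel₀ h0 this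
        exact hext h1 h2 h3 h4
  have := Fintype.card_le_of_injective e he
  rw [Fintype.card_prod, Fintype.card_prod, ZMod.card] at this
  calc Fintype.card (SLp q) ≤ q * (q * q) := this
    _ = q ^ 3 := by ring

section Red

variable {ι : Type} [Fintype ι] [DecidableEq ι] (p : ι → ℕ) [∀ i, Fact (p i).Prime]

/-- reduction modulo all the primes -/
def red : Gam →* (∀ i, SLp (p i)) :=
  MonoidHom.pi fun i => Matrix.SpecialLinearGroup.map (Int.castRingHom (ZMod (p i)))

lemma red_entry (γ : Gam) (i : ι) (a b : Fin 2) : (red p γ i).1 a b = ((γ.1 a b : ℤ) : ZMod (p i)) := by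
  rfl

lemma ker_red (hp : Function.Injective p) (γ : Gam) (h : red p γ = 1) : CK (∏ i, p i) γ := by
  have hent : ∀ i a b, ((γ.1 a b : ℤ) : ZMod (p i)) = (1 : Matrix (Fin 2) (Fin 2) (ZMod (p i))) a b := by
    intro i a b
    rw [← red_entry p γ i a b, h]
    rfl
  have hdvd : ∀ z : ℤ, (∀ i, ((p i : ℤ)) ∣ z) → ((∏ i, p i : ℕ) : ℤ) ∣ z := by
    intro z hz
    push_cast
    apply Finset.prod_dvd_of_coprime
    · intro i _ j _ hij
      have : (p i).Coprime (p j) := by
        rw [Nat.coprime_primes (Fact.out) (Fact.out)]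
        exact fun e => hij (hp e)
      exact Nat.isCoprime_iff_coprime.mpr this
    · intro i _; exact hz i
  refine ⟨hdvd _ fun i => ?_, hdvd _ fun i => ?_, hdvd _ fun i => ?_, hdvd _ fun i => ?_⟩
  · rw [← ZMod.intCast_zmod_eq_zero_iff_dvd]
    · have := hent i 0 0
      push_cast
      rw [this]; simp
  · rw [← ZMod.intCast_zmod_eq_zero_iff_dvd]
    · have := hent i 0 1
      rw [this]; simp
  · rw [← ZMod.intCast_zmod_eq_zero_iff_dvd]
    · have := hent i 1 0
      rw [this]; simp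
  · rw [← ZMod.intCast_zmod_eq_zero_iff_dvd]
    · have := hent i 1 1
      push_cast
      rw [this]; simp

open Classical in
/-- The estimate for pure functions. -/
lemma pure_case (T : ℕ) (hT : 1 ≤ T) (hS : (0 : ℝ) < (ST T).card) (hp : Function.Injective p)
    (j : ℕ)
    (hnum : KT T ^ (2 ^ j + 2 ^ j) * (∑ κ ∈ (ball ((2 * T : ℤ) ^ (2 ^ j + 2 ^ j))).filter
      (CK (∏ i, p i)), 1 / (nm κ : ℝ)) * ((∏ i, p i : ℕ) : ℝ) ^ 2 <
        (((ST T).card : ℝ) / 2) ^ (2 ^ j + 2 ^ j))
    (f : (∀ i, Pt (p i)) → ℝ) (hf : ∀ i, PureAt f i) :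
    W (ST T) 1 (fun γ => mc f (red p γ)) ≤ (((ST T).card : ℝ) / 2) * ∑ x, f x ^ 2 := by
  by_contra hcon
  push Not at hcon
  set B := ∑ x, f x ^ 2 with hB
  set c : ℝ := ((ST T).card : ℝ) / 2 with hc
  have hc0 : 0 < c := half_pos hS
  have hB0 : 0 < B := by
    rcases (Finset.sum_nonneg (fun x _ => sq_nonneg (f x)) : 0 ≤ B).eq_or_lt with h | h
    · exfalso
      have hz : ∀ x, f x = 0 := by
        intro x
        have := (Finset.sum_eq_zero_iff_of_nonneg (fun x _ => sq_nonneg (f x))).mp h.symm x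
          (Finset.mem_univ x)
        exact pow_eq_zero_iff (two_ne_zero) |>.mp this
      have h0 : W (ST T) 1 (fun γ => mc f (red p γ)) = 0 := by
        have : (fun γ => mc f (red p γ)) = fun γ => (0 : ℝ) * 0 := by
          funext γ
          unfold mc
          simp [hz]
        rw [this, W_mul_left, zero_mul]
      have hB' : B = 0 := h.symm
      rw [h0, hB', mul_zero] at hcon
      exact lt_irrefl _ hcon
    · exact h
  set m := 2 ^ j with hm
  have h1 := W_power (ST T) (ST_symm T) (red p) f c hc0.le hB0 hcon.le j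
  rw [← hm, ← hB] at h1
  have h2 := W_quot (ST T) (ST_symm T) (red p) (mc f) m
  have hq0 : (0 : ℝ) < ∏ i, (p i : ℝ) := by
    apply Finset.prod_pos
    intro i _
    have := (Fact.out : (p i).Prime).pos
    exact_mod_cast this
  have h3 := schur (G := fun i => SLp (p i)) (fun i => (p i : ℝ))
    (fun i => by
      have := (Fact.out : (p i).Prime).pos
      exact_mod_cast this)
    (fun i => by rw [card_Pt]; push_cast; ring)
    (fun i a b => by
      have : MulAction.IsPreprimitive (SLp (p i)) (Pt (p i)) := Projectivization.prePrimitive_SL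
      exact MulAction.exists_smul_eq (SLp (p i)) a b)
    (fun i a b c hb hc => by
      have : MulAction.IsMultiplyPretransitive (SLp (p i)) (Pt (p i)) 2 := inferInstance
      rw [MulAction.is_two_pretransitive_iff] at this
      exact this (Ne.symm hb) (Ne.symm hc)) f hf
  rw [← hB] at h3
  have h4 : ((Fintype.card (∀ i, SLp (p i)) : ℕ) : ℝ) ≤ (∏ i, (p i : ℝ)) ^ 3 := by
    rw [Fintype.card_pi, ← Finset.prod_pow]
    push_cast
    apply Finset.prod_le_prod
    · intro i _; positivity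
    · intro i _
      exact_mod_cast card_SLp (p i)
  have h5 : ∑ g : (∀ i, SLp (p i)), mc f g ^ 2 ≤ (∏ i, (p i : ℝ)) ^ 2 * B ^ 2 := by
    have h6 : (∏ i, (p i : ℝ)) * ∑ g : (∀ i, SLp (p i)), mc f g ^ 2 ≤
        (∏ i, (p i : ℝ)) * ((∏ i, (p i : ℝ)) ^ 2 * B ^ 2) := by
      unfold mc
      rw [h3]
      calc _ ≤ (∏ i, (p i : ℝ)) ^ 3 * B ^ 2 := mul_le_mul_of_nonneg_right h4 (sq_nonneg _)
        _ = _ := by ring
    exact le_of_mul_le_mul_left h6 hq0
  have h6 : W (ST T) (m + m) (fun γ => if red p γ = 1 then 1 else 0) ≤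
      KT T ^ (m + m) * (∑ κ ∈ (ball ((2 * T : ℤ) ^ (m + m))).filter
      (CK (∏ i, p i)), 1 / (nm κ : ℝ)) := by
    refine le_trans (W_mono _ _ _ (fun γ => if CK (∏ i, p i) γ then 1 else 0) ?_)
      (W_ker T hT (m + m) (CK (∏ i, p i)))
    intro γ
    by_cases h : red p γ = 1
    · rw [if_pos h, if_pos (ker_red p hp γ h)]
    · rw [if_neg h]
      split_ifs <;> norm_num
  set Kn := KT T ^ (m + m) * (∑ κ ∈ (ball ((2 * T : ℤ) ^ (m + m))).filter
      (CK (∏ i, p i)), 1 / (nm κ : ℝ)) with hKn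
  have h7 : (c ^ m * B) ^ 2 ≤ Kn * ((∏ i, (p i : ℝ)) ^ 2 * B ^ 2) := by
    have hKn0 : 0 ≤ Kn := by
      rw [hKn]
      apply mul_nonneg (pow_nonneg (KT_nonneg T) _)
      apply Finset.sum_nonneg
      intro κ _
      exact (one_div_pos.mpr (nm_pos_real κ)).le
    calc (c ^ m * B) ^ 2 ≤ (W (ST T) m (fun γ => mc f (red p γ))) ^ 2 :=
          pow_le_pow_left₀ (by positivity) h1 2
      _ ≤ _ := h2
      _ ≤ Kn * ((∏ i, (p i : ℝ)) ^ 2 * B ^ 2) :=
          mul_le_mul h6 h5 (Finset.sum_nonneg fun g _ => sq_nonneg _) hKn0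
  have h8 : c ^ (m + m) * B ^ 2 ≤ (Kn * (∏ i, (p i : ℝ)) ^ 2) * B ^ 2 := by
    calc c ^ (m + m) * B ^ 2 = (c ^ m * B) ^ 2 := by rw [mul_pow, ← pow_mul]; congr 2; ring
      _ ≤ _ := h7
      _ = _ := by ring
  have h9 : c ^ (m + m) ≤ Kn * (∏ i, (p i : ℝ)) ^ 2 :=
    le_of_mul_le_mul_right h8 (by positivity)
  push_cast at hnum
  linarith

end Red

/-- The uniform spectral gap. -/
theorem expansion : ∃ c0 : ℝ, 0 < c0 ∧ ∃ M0 : ℕ, ∀ (ι : Type) [Fintype ι] [DecidableEq ι]
    (p : ι → ℕ) [∀ i, Fact (p i).Prime], Function.Injective p → (∀ i, M0 ≤ p i) →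
    ∀ f : (∀ i, Pt (p i)) → ℝ, ∑ x, f x = 0 →
      c0 * ∑ x, f x ^ 2 ≤ dsp (red p Lm) f + dsp (red p Rm) f := by
  classical
  obtain ⟨T, q0, hT, hq0, hS, hnum⟩ := numerics
  choose l hl0 hl using word_length
  set ℓ : ℝ := ∑ s ∈ ST T, l s with hℓ
  have hℓ0 : 0 ≤ ℓ := Finset.sum_nonneg fun s _ => hl0 s
  refine ⟨(ST T).card / (ℓ + 1), by positivity, q0, ?_⟩
  intro ι _ _ p _ hp hM f hf
  refine decomp_sub (G := fun i => SLp (p i)) (red p Lm) (red p Rm) _ ?_ f hf
  intro D hD f hpure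
  change _ ≤ dsp (red (fun i : D => p i) Lm) f + dsp (red (fun i : D => p i) Rm) f
  have hp' : Function.Injective (fun i : D => p i) := fun i j h => Subtype.ext (hp h)
  have hq : q0 ≤ ∏ i : D, p i := by
    obtain ⟨i, hi⟩ := hD
    calc q0 ≤ p i := hM i
      _ ≤ ∏ i : D, p i := by
          apply Nat.le_of_dvd
          · apply Finset.prod_pos
            intro i _
            exact (Fact.out : (p i).Prime).pos
          · exact Finset.dvd_prod_of_mem (fun i : D => p i) (Finset.mem_univ ⟨i, hi⟩)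
  obtain ⟨j, hj⟩ := hnum _ hq
  have h1 := pure_case (fun i : D => p i) T hT hS hp' j hj f hpure
  set B := ∑ x, f x ^ 2 with hB
  have hB0 : 0 ≤ B := Finset.sum_nonneg fun _ _ => sq_nonneg _
  set Φ := dsp (red (fun i : D => p i) Lm) f + dsp (red (fun i : D => p i) Rm) f with hΦ
  have hΦ0 : 0 ≤ Φ := add_nonneg (dsp_nonneg _ _) (dsp_nonneg _ _)
  have h2 : ∑ s ∈ ST T, dsp (red (fun i : D => p i) s) f ≤ ℓ * Φ := by
    rw [hℓ, Finset.sum_mul]
    exact Finset.sum_le_sum fun s _ => hl s _ _ _ f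
  have h3 : ∀ s : Gam, dsp (red (fun i : D => p i) s) f = 2 * B - 2 * mc f (red (fun i : D => p i) s) := by
    intro s
    unfold dsp mc
    have e1 : ∑ x, f (red (fun i : D => p i) s • x) ^ 2 = B :=
      Fintype.sum_equiv (MulAction.toPerm (red (fun i : D => p i) s)) _ _ fun x => rfl
    have e2 : ∀ x, (f (red (fun i : D => p i) s • x) - f x) ^ 2 =
        f (red (fun i : D => p i) s • x) ^ 2 + f x ^ 2 -
          2 * (f (red (fun i : D => p i) s • x) * f x) := fun x => by ring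
    simp only [e2]
    rw [Finset.sum_sub_distrib, Finset.sum_add_distrib, e1, ← Finset.mul_sum, ← hB]
    ring
  have h4 : ∑ s ∈ ST T, dsp (red (fun i : D => p i) s) f = 2 * (ST T).card * B -
      2 * W (ST T) 1 (fun γ => mc f (red (fun i : D => p i) γ)) := by
    rw [W_succ]
    simp only [W_zero, one_mul, h3]
    rw [Finset.sum_sub_distrib, Finset.sum_const, nsmul_eq_mul, ← Finset.mul_sum]
    ring
  have h5 : (ST T).card * B ≤ ℓ * Φ := by linarith
  rw [div_mul_eq_mul_div, div_le_iff₀ (by positivity)]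
  nlinarith

end Pool.Agent.Lib.MP_a22f36
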