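import Mathlib
import Pool.Agent.Lib.MP_a22f36.Defs
import Pool.Agent.Lib.MP_a22f36.Expand

set_option autoImplicit false
set_option linter.unusedSectionVars false

/-!
# Infinite good paths
-/

namespace Pool.Agent.Lib.MP_a22f36

open Matrix

/-- first coordinate zero -/
def zeroX (q : ℕ) [Fact q.Prime] : Pt q := Projectivization.mk (ZMod q) ![0, 1] (by simp)

/-- second coordinate zero -/
def zeroY (q : ℕ) [Fact q.Prime] : Pt q := Projectivization.mk (ZMod q) ![1, 0] (by simp)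

section Dyn

variable {ι : Type} [Fintype ι] [DecidableEq ι] (p : ι → ℕ) [∀ i, Fact (p i).Prime]

open Classical in
/-- bad points -/
noncomputable def Bad : Finset (∀ i, Pt (p i)) :=
  Finset.univ.filter fun v => (∀ i, v i ≠ zeroX (p i)) ∨ (∀ i, v i ≠ zeroY (p i))

lemma card_V : Fintype.card (∀ i, Pt (p i)) = ∏ i, (p i + 1) := by
  rw [Fintype.card_pi]
  exact Finset.prod_congr rfl fun i _ => card_Pt (p i)

open Classical in
lemma card_avoid (z : ∀ i, Pt (p i)) :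
    (Finset.univ.filter fun v : (∀ i, Pt (p i)) => ∀ i, v i ≠ z i).card = ∏ i, p i := by
  have : (Finset.univ.filter fun v : (∀ i, Pt (p i)) => ∀ i, v i ≠ z i) =
      Fintype.piFinset fun i => Finset.univ.erase (z i) := by
    ext v
    simp [Fintype.mem_piFinset]
  rw [this, Fintype.card_piFinset]
  refine Finset.prod_congr rfl fun i _ => ?_
  rw [Finset.card_erase_of_mem (Finset.mem_univ _), Finset.card_univ, card_Pt]
  rfl

lemma card_Bad : (Bad p).card ≤ 2 * ∏ i, p i := by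
  classical
  unfold Bad
  rw [Finset.filter_or]
  refine (Finset.card_union_le _ _).trans ?_
  have h1 := card_avoid p (fun i => zeroX (p i))
  have h2 := card_avoid p (fun i => zeroY (p i))
  rw [two_mul]
  apply add_le_add
  · rw [← h1]
  · rw [← h2]

open Classical in
/-- points all of whose paths of length at most `n` meet the bad set -/
noncomputable def Cn : ℕ → Finset (∀ i, Pt (p i))
  | 0 => Bad p
  | (n + 1) => Finset.univ.filter fun v => v ∈ Bad p ∨ (red p Lm • v ∈ Cn n ∧ red p Rm • v ∈ Cn n)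

lemma Cn_zero : Cn p 0 = Bad p := rfl

lemma mem_Cn_succ (n : ℕ) (v : ∀ i, Pt (p i)) :
    v ∈ Cn p (n + 1) ↔ v ∈ Bad p ∨ (red p Lm • v ∈ Cn p n ∧ red p Rm • v ∈ Cn p n) := by
  rw [Cn]
  simp

lemma Cn_mono_succ (n : ℕ) : Cn p n ⊆ Cn p (n + 1) := by
  induction n with
  | zero =>
    intro v hv
    rw [mem_Cn_succ]
    left; exact hv
  | succ n ih =>
    intro v hv
    rw [mem_Cn_succ] at hv ⊢
    rcases hv with h | h
    · left; exact h
    · right; exact ⟨ih h.1, ih h.2⟩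

lemma Cn_mono {m n : ℕ} (h : m ≤ n) : Cn p m ⊆ Cn p n := by
  induction n, h using Nat.le_induction with
  | base => exact subset_rfl
  | succ n _ ih => exact ih.trans (Cn_mono_succ p n)

open Classical in
lemma dsp_indicator (C : Finset (∀ i, Pt (p i))) (g : ∀ i, SLp (p i)) (b : ℝ)
    (h : ∀ v ∈ C, v ∉ Bad p → g • v ∈ C) :
    dsp g (fun v => (if v ∈ C then (1 : ℝ) else 0) - b) ≤ 2 * (Bad p).card := by
  unfold dsp
  have e : ∀ x, ((if g • x ∈ C then (1 : ℝ) else 0) - b - ((if x ∈ C then (1 : ℝ) else 0) - b)) ^ 2 =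
      (if g • x ∈ C then (1 : ℝ) else 0) + (if x ∈ C then (1 : ℝ) else 0) -
        2 * (if (g • x ∈ C ∧ x ∈ C) then (1 : ℝ) else 0) := by
    intro x
    by_cases h1 : g • x ∈ C <;> by_cases h2 : x ∈ C <;>
      simp only [h1, h2, if_true, if_false, and_true, and_false, and_self] <;> ring
  simp only [e]
  rw [Finset.sum_sub_distrib, Finset.sum_add_distrib, ← Finset.mul_sum]
  have e1 : ∑ x, (if g • x ∈ C then (1 : ℝ) else 0) = C.card := by
    have : ∑ x, (if g • x ∈ C then (1 : ℝ) else 0) = ∑ x, (if x ∈ C then (1 : ℝ) else 0) :=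
      Fintype.sum_equiv (MulAction.toPerm g) _ _ fun x => rfl
    rw [this]
    simp
  have e2 : ∑ x, (if x ∈ C then (1 : ℝ) else 0) = C.card := by simp
  have e3 : (C.card : ℝ) - (Bad p).card ≤ ∑ x, (if (g • x ∈ C ∧ x ∈ C) then (1 : ℝ) else 0) := by
    have h1 : ∑ x, (if (g • x ∈ C ∧ x ∈ C) then (1 : ℝ) else 0) =
        ((Finset.univ.filter fun x => g • x ∈ C ∧ x ∈ C).card : ℝ) := by simp
    rw [h1]
    have h2 : C ⊆ (Finset.univ.filter fun x => g • x ∈ C ∧ x ∈ C) ∪ Bad p := by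
      intro v hv
      rw [Finset.mem_union, Finset.mem_filter]
      by_cases hb : v ∈ Bad p
      · right; exact hb
      · left; exact ⟨Finset.mem_univ _, h v hv hb, hv⟩
    have h3 := (Finset.card_le_card h2).trans (Finset.card_union_le _ _)
    have h4 : (C.card : ℝ) ≤ ((Finset.univ.filter fun x => g • x ∈ C ∧ x ∈ C).card : ℝ) +
        (Bad p).card := by exact_mod_cast h3
    linarith
  rw [e1, e2]
  linarith

/-- If the bad set is small then no `Cn` is everything. -/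
lemma Cn_ne_univ (c0 : ℝ) (hc0 : 0 < c0)
    (hexp : ∀ f : (∀ i, Pt (p i)) → ℝ, ∑ x, f x = 0 →
      c0 * ∑ x, f x ^ 2 ≤ dsp (red p Lm) f + dsp (red p Rm) f)
    (hB3 : ((Bad p).card : ℝ) < (1 / 3) * Fintype.card (∀ i, Pt (p i)))
    (hB : ((Bad p).card : ℝ) < (c0 / 36) * Fintype.card (∀ i, Pt (p i))) (N : ℕ) :
    Cn p N ≠ Finset.univ := by
  classical
  intro hN
  set v : ℝ := (Fintype.card (∀ i, Pt (p i)) : ℝ) with hv
  have hvpos : 0 < v := by
    have h0 : (0 : ℝ) ≤ (Bad p).card := by positivity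
    by_contra h
    push Not at h
    nlinarith
  have hex : ∃ n, (1 / 3) * v ≤ (Cn p n).card := by
    refine ⟨N, ?_⟩
    rw [hN, Finset.card_univ, ← hv]
    linarith
  set n := Nat.find hex with hn
  have h1 : (1 / 3) * v ≤ (Cn p n).card := Nat.find_spec hex
  have hn0 : n ≠ 0 := by
    intro h
    rw [h, Cn_zero] at h1
    linarith
  obtain ⟨k, hk⟩ := Nat.exists_eq_succ_of_ne_zero hn0
  have h2 : ((Cn p k).card : ℝ) < (1 / 3) * v := by
    have := Nat.find_min hex (m := k) (by omega)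
    push Not at this
    exact this
  have hk' : n = k + 1 := hk
  rw [hk'] at h1
  set C := Cn p (k + 1) with hC
  have h3 : (C.card : ℝ) ≤ (2 / 3) * v := by
    have hsub : C ⊆ Bad p ∪ (Finset.univ.filter fun v => red p Lm • v ∈ Cn p k) := by
      intro w hw
      rw [hC, mem_Cn_succ] at hw
      rw [Finset.mem_union, Finset.mem_filter]
      rcases hw with h | h
      · left; exact h
      · right; exact ⟨Finset.mem_univ _, h.1⟩
    have hcard : (Finset.univ.filter fun v => red p Lm • v ∈ Cn p k).card ≤ (Cn p k).card := by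
      apply Finset.card_le_card_of_injOn (fun v => red p Lm • v)
      · intro w hw
        simpa using hw
      · intro a _ b _ h
        exact MulAction.injective (red p Lm) h
    have h4 := (Finset.card_le_card hsub).trans ((Finset.card_union_le _ _).trans
      (Nat.add_le_add_left hcard _))
    have h5 : (C.card : ℝ) ≤ (Bad p).card + (Cn p k).card := by exact_mod_cast h4
    linarith
  have hL : ∀ w ∈ C, w ∉ Bad p → red p Lm • w ∈ C := by
    intro w hw hb
    rw [hC, mem_Cn_succ] at hw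
    rcases hw with h | h
    · exact absurd h hb
    · exact Cn_mono_succ p k h.1
  have hR : ∀ w ∈ C, w ∉ Bad p → red p Rm • w ∈ C := by
    intro w hw hb
    rw [hC, mem_Cn_succ] at hw
    rcases hw with h | h
    · exact absurd h hb
    · exact Cn_mono_succ p k h.2
  set b : ℝ := C.card / v with hb
  have hs1 : ∑ x : (∀ i, Pt (p i)), (if x ∈ C then (1 : ℝ) else 0) = C.card := by simp
  have hsum : ∑ x : (∀ i, Pt (p i)), ((if x ∈ C then (1 : ℝ) else 0) - b) = 0 := by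
    rw [Finset.sum_sub_distrib, hs1, Finset.sum_const, Finset.card_univ, nsmul_eq_mul, ← hv, hb]
    field_simp
    ring
  have hexp' := hexp (fun x => (if x ∈ C then (1 : ℝ) else 0) - b) hsum
  have hd1 := dsp_indicator p C (red p Lm) b hL
  have hd2 := dsp_indicator p C (red p Rm) b hR
  have hsq : ∑ x : (∀ i, Pt (p i)), ((if x ∈ C then (1 : ℝ) else 0) - b) ^ 2 = C.card * (1 - b) := by
    have e : ∀ x : (∀ i, Pt (p i)), ((if x ∈ C then (1 : ℝ) else 0) - b) ^ 2 =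
        (1 - 2 * b) * (if x ∈ C then (1 : ℝ) else 0) + b ^ 2 := by
      intro x
      split_ifs <;> ring
    simp only [e]
    rw [Finset.sum_add_distrib, ← Finset.mul_sum, hs1, Finset.sum_const, Finset.card_univ,
      nsmul_eq_mul, ← hv]
    have : v * b ^ 2 = C.card * b := by rw [hb]; field_simp
    rw [this]; ring
  rw [hsq] at hexp'
  have hb1 : b ≤ 2 / 3 := by rw [hb, div_le_iff₀ hvpos]; exact h3
  have h6 : v / 9 ≤ C.card * (1 - b) := by nlinarith
  have h7 := mul_le_mul_of_nonneg_left h6 hc0.le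
  linarith

/-- existence of a point which lies in no `Cn` -/
lemma exists_good (hne : ∀ N, Cn p N ≠ Finset.univ) : ∃ v, ∀ n, v ∉ Cn p n := by
  by_contra h
  push Not at h
  choose n hn using h
  apply hne (Finset.univ.sup n)
  rw [Finset.eq_univ_iff_forall]
  intro v
  exact Cn_mono p (Finset.le_sup (Finset.mem_univ v)) (hn v)

lemma good_step (v : ∀ i, Pt (p i)) (hv : ∀ n, v ∉ Cn p n) :
    v ∉ Bad p ∧ ((∀ n, red p Lm • v ∉ Cn p n) ∨ (∀ n, red p Rm • v ∉ Cn p n)) := by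
  refine ⟨by rw [← Cn_zero]; exact hv 0, ?_⟩
  by_contra h
  push Not at h
  obtain ⟨⟨a, ha⟩, ⟨b, hb⟩⟩ := h
  apply hv (max a b + 1)
  rw [mem_Cn_succ]
  right
  exact ⟨Cn_mono p (le_max_left _ _) ha, Cn_mono p (le_max_right _ _) hb⟩

/-- `(X, Y)` represents the point `v`. -/
def Rep (X Y : ℕ) (v : ∀ i, Pt (p i)) : Prop :=
  ∀ i, ∃ h : (![(X : ZMod (p i)), (Y : ZMod (p i))] : Fin 2 → ZMod (p i)) ≠ 0,
    v i = Projectivization.mk (ZMod (p i)) ![(X : ZMod (p i)), (Y : ZMod (p i))] h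

lemma red_L (i : ι) : (red p Lm i).1 0 0 = 1 ∧ (red p Lm i).1 0 1 = 0 ∧ (red p Lm i).1 1 0 = 1 ∧
    (red p Lm i).1 1 1 = 1 := by
  simp only [red_entry]
  have h1 : Lm.1 0 0 = 1 := rfl
  have h2 : Lm.1 0 1 = 0 := rfl
  have h3 : Lm.1 1 0 = 1 := rfl
  have h4 : Lm.1 1 1 = 1 := rfl
  rw [h1, h2, h3, h4]
  simp

lemma red_R (i : ι) : (red p Rm i).1 0 0 = 1 ∧ (red p Rm i).1 0 1 = 1 ∧ (red p Rm i).1 1 0 = 0 ∧
    (red p Rm i).1 1 1 = 1 := by
  simp only [red_entry]
  have h1 : Rm.1 0 0 = 1 := rfl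
  have h2 : Rm.1 0 1 = 1 := rfl
  have h3 : Rm.1 1 0 = 0 := rfl
  have h4 : Rm.1 1 1 = 1 := rfl
  rw [h1, h2, h3, h4]
  simp

lemma smul_pair (q : ℕ) (g : SLp q) (x y : ZMod q) : g • (![x, y] : Fin 2 → ZMod q) =
    ![g.1 0 0 * x + g.1 0 1 * y, g.1 1 0 * x + g.1 1 1 * y] := by
  rw [Matrix.SpecialLinearGroup.smul_def]
  ext j
  fin_cases j
  · simp [Matrix.mulVec, dotProduct, Fin.sum_univ_two]
  · simp [Matrix.mulVec, dotProduct, Fin.sum_univ_two]

lemma Rep_L {X Y : ℕ} {v : ∀ i, Pt (p i)} (h : Rep p X Y v) : Rep p X (X + Y) (red p Lm • v) := by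
  intro i
  obtain ⟨h0, h1⟩ := h i
  have e : (red p Lm i) • (![(X : ZMod (p i)), (Y : ZMod (p i))] : Fin 2 → ZMod (p i)) =
      ![(X : ZMod (p i)), ((X + Y : ℕ) : ZMod (p i))] := by
    obtain ⟨e1, e2, e3, e4⟩ := red_L p i
    rw [smul_pair, e1, e2, e3, e4]
    push_cast
    simp
  have h2 : (![(X : ZMod (p i)), ((X + Y : ℕ) : ZMod (p i))] : Fin 2 → ZMod (p i)) ≠ 0 := by
    rw [← e]
    exact (smul_ne_zero_iff_ne _).mpr h0
  refine ⟨h2, ?_⟩
  change red p Lm i • v i = _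
  rw [h1, Projectivization.smul_mk]
  congr 1

lemma Rep_R {X Y : ℕ} {v : ∀ i, Pt (p i)} (h : Rep p X Y v) : Rep p (X + Y) Y (red p Rm • v) := by
  intro i
  obtain ⟨h0, h1⟩ := h i
  have e : (red p Rm i) • (![(X : ZMod (p i)), (Y : ZMod (p i))] : Fin 2 → ZMod (p i)) =
      ![((X + Y : ℕ) : ZMod (p i)), (Y : ZMod (p i))] := by
    obtain ⟨e1, e2, e3, e4⟩ := red_R p i
    rw [smul_pair, e1, e2, e3, e4]
    push_cast
    simp
  have h2 : (![((X + Y : ℕ) : ZMod (p i)), (Y : ZMod (p i))] : Fin 2 → ZMod (p i)) ≠ 0 := by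
    rw [← e]
    exact (smul_ne_zero_iff_ne _).mpr h0
  refine ⟨h2, ?_⟩
  change red p Rm i • v i = _
  rw [h1, Projectivization.smul_mk]
  congr 1

lemma Rep_good {X Y : ℕ} {v : ∀ i, Pt (p i)} (h : Rep p X Y v) (hv : v ∉ Bad p) :
    Nat.gcd (Nat.gcd X Y) (∏ i, p i) = 1 ∧ (∃ i, p i ∣ X) ∧ (∃ i, p i ∣ Y) := by
  classical
  have hv' : (∃ i, v i = zeroX (p i)) ∧ (∃ i, v i = zeroY (p i)) := by
    unfold Bad at hv
    simp only [Finset.mem_filter, Finset.mem_univ, true_and, not_or, not_forall, not_not] at hv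
    exact hv
  refine ⟨?_, ?_, ?_⟩
  · by_contra hg
    obtain ⟨r, hr, hr'⟩ := Nat.exists_prime_and_dvd hg
    have h1 := hr'.trans (Nat.gcd_dvd_left _ _)
    have h2 := hr'.trans (Nat.gcd_dvd_right _ _)
    obtain ⟨i, _, hi⟩ := (Prime.dvd_finsetProd_iff hr.prime _).mp h2
    have hri : r = p i := (Nat.prime_dvd_prime_iff_eq hr (Fact.out)).mp hi
    obtain ⟨h0, _⟩ := h i
    apply h0
    have hX : ((X : ℕ) : ZMod (p i)) = 0 := by
      rw [ZMod.natCast_eq_zero_iff, ← hri]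
      exact h1.trans (Nat.gcd_dvd_left _ _)
    have hY : ((Y : ℕ) : ZMod (p i)) = 0 := by
      rw [ZMod.natCast_eq_zero_iff, ← hri]
      exact h1.trans (Nat.gcd_dvd_right _ _)
    rw [hX, hY]
    ext j
    fin_cases j <;> simp
  · obtain ⟨i, hi⟩ := hv'.1
    obtain ⟨h0, h1⟩ := h i
    refine ⟨i, ?_⟩
    rw [h1] at hi
    unfold zeroX at hi
    rw [Projectivization.mk_eq_mk_iff'] at hi
    obtain ⟨a, ha⟩ := hi
    have := congrFun ha 0
    simp at this
    rw [← ZMod.natCast_eq_zero_iff]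
    exact this.symm
  · obtain ⟨i, hi⟩ := hv'.2
    obtain ⟨h0, h1⟩ := h i
    refine ⟨i, ?_⟩
    rw [h1] at hi
    unfold zeroY at hi
    rw [Projectivization.mk_eq_mk_iff'] at hi
    obtain ⟨a, ha⟩ := hi
    have := congrFun ha 1
    simp at this
    rw [← ZMod.natCast_eq_zero_iff]
    exact this.symm

lemma exists_rep (hp : Function.Injective p) (v : ∀ i, Pt (p i)) :
    ∃ X Y : ℕ, 0 < X ∧ 0 < Y ∧ Rep p X Y v := by
  have hcop : Set.Pairwise (↑(Finset.univ : Finset ι)) (Function.onFun Nat.Coprime p) := by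
    intro i _ j _ hij
    change (p i).Coprime (p j)
    rw [Nat.coprime_primes (Fact.out) (Fact.out)]
    exact fun e => hij (hp e)
  have hne : ∀ i ∈ (Finset.univ : Finset ι), p i ≠ 0 := fun i _ => (Fact.out : (p i).Prime).ne_zero
  have crt : ∀ a : ι → ℕ, ∃ X : ℕ, 0 < X ∧ ∀ i, ((X : ℕ) : ZMod (p i)) = (a i : ZMod (p i)) := by
    intro a
    obtain ⟨k, hk⟩ := Nat.chineseRemainderOfFinset a p Finset.univ hne hcop
    refine ⟨k + ∏ i, p i, ?_, ?_⟩
    · have : 0 < ∏ i, p i := Finset.prod_pos fun i _ => (Fact.out : (p i).Prime).pos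
      omega
    · intro i
      have h1 : ((∏ i, p i : ℕ) : ZMod (p i)) = 0 := by
        rw [ZMod.natCast_eq_zero_iff]
        exact Finset.dvd_prod_of_mem p (Finset.mem_univ i)
      have h2 : ((k : ℕ) : ZMod (p i)) = (a i : ZMod (p i)) :=
        (ZMod.natCast_eq_natCast_iff _ _ _).mpr (hk i (Finset.mem_univ i))
      rw [Nat.cast_add, h1, add_zero, h2]
  obtain ⟨X, hX0, hX⟩ := crt fun i => ((v i).rep 0).val
  obtain ⟨Y, hY0, hY⟩ := crt fun i => ((v i).rep 1).val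
  refine ⟨X, Y, hX0, hY0, ?_⟩
  intro i
  have e : (![(X : ZMod (p i)), (Y : ZMod (p i))] : Fin 2 → ZMod (p i)) = (v i).rep := by
    have : NeZero (p i) := ⟨(Fact.out : (p i).Prime).ne_zero⟩
    ext j
    fin_cases j
    · simp [hX i]
    · simp [hY i]
  have h0 : (![(X : ZMod (p i)), (Y : ZMod (p i))] : Fin 2 → ZMod (p i)) ≠ 0 := by
    rw [e]; exact (v i).rep_nonzero
  refine ⟨h0, ?_⟩
  have h1 := (v i).mk_rep
  rw [← h1]
  congr 1
  exact e.symm

end Dyn

/-- Infinite type from a good point. -/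
lemma infinite_type (P : Finset ℕ) (hP : ∀ q ∈ P, q.Prime)
    (H : ∀ (_ : ∀ i : P, Fact ((i : ℕ)).Prime), ∃ v, ∀ n, v ∉ Cn (fun i : P => (i : ℕ)) n) :
    ¬ FiniteType P := by
  have : ∀ i : P, Fact ((i : ℕ)).Prime := fun i => ⟨hP i i.2⟩
  obtain ⟨v0, hv0⟩ := H this
  obtain ⟨x, y, hx, hy, hrep⟩ := exists_rep (fun i : P => (i : ℕ)) Subtype.val_injective v0
  intro hfin
  have hfin' := hfin x y hx hy
  have hprod : ∏ i : P, (i : ℕ) = ∏ q ∈ P, q := Finset.prod_coe_sort P (fun q => q)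
  have key : ∀ n : ℕ, ∃ X Y : ℕ, 0 < X ∧ 0 < Y ∧ n ≤ X + Y ∧ APT P x y X Y ∧
      ∃ v, Rep (fun i : P => (i : ℕ)) X Y v ∧ ∀ n, v ∉ Cn (fun i : P => (i : ℕ)) n := by
    intro n
    induction n with
    | zero => exact ⟨x, y, hx, hy, Nat.zero_le _, APT.root, v0, hrep, hv0⟩
    | succ n ih =>
      obtain ⟨X, Y, hX, hY, hn, hA, v, hr, hv⟩ := ih
      obtain ⟨hbad, hor⟩ := good_step _ v hv
      obtain ⟨hg, ⟨i, hi⟩, ⟨j, hj⟩⟩ := Rep_good _ hr hbad
      rw [hprod] at hg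
      rcases hor with h | h
      · exact ⟨X, X + Y, hX, by omega, by omega,
          APT.left X Y hA hg ⟨i, i.2, hi⟩ ⟨j, j.2, hj⟩, _, Rep_L _ hr, h⟩
      · exact ⟨X + Y, Y, by omega, hY, by omega,
          APT.right X Y hA hg ⟨i, i.2, hi⟩ ⟨j, j.2, hj⟩, _, Rep_R _ hr, h⟩
  -- contradiction with finiteness
  have hb := (hfin'.image fun q : ℕ × ℕ => q.1 + q.2).bddAbove
  obtain ⟨N, hN⟩ := hb
  obtain ⟨X, Y, _, _, hn, hA, _⟩ := key (N + 1)
  have : X + Y ≤ N := hN ⟨(X, Y), hA, rfl⟩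
  omega

end Pool.Agent.Lib.MP_a22f36
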