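import Mathlib
import Pool.Agent.Lib.MP_a22f36.Defs

set_option autoImplicit false

namespace Pool.Agent.Lib.MP_a22f36

/-- The empty set is of finite type. -/
lemma finiteType_empty : FiniteType ∅ := by
  intro x y _ _
  refine Set.Finite.subset (Set.finite_singleton (x, y)) ?_
  rintro ⟨X, Y⟩ h
  simp only [Set.mem_setOf_eq] at h
  cases h with
  | root => rfl
  | left X' Y' _ _ h1 _ => obtain ⟨p, hp, _⟩ := h1; simp at hp
  | right X' Y' _ _ h1 _ => obtain ⟨p, hp, _⟩ := h1; simp at hp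

/-- A set of infinite type contains a primitive set. -/
lemma exists_primitive_subset : ∀ n : ℕ, ∀ P : Finset ℕ, P.card = n → (∀ p ∈ P, p.Prime) →
    ¬ FiniteType P → ∃ Q, Q ⊆ P ∧ IsPrimitive Q := by
  intro n
  induction n using Nat.strong_induction_on with
  | _ n ih =>
    intro P hcard hP hinf
    by_cases h : ∀ Q : Finset ℕ, Q ⊂ P → FiniteType Q
    · exact ⟨P, subset_rfl, hP, hinf, h⟩
    · push Not at h
      obtain ⟨Q, hQP, hQ⟩ := h
      have hc : Q.card < n := hcard ▸ Finset.card_lt_card hQP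
      obtain ⟨R, hR, hR'⟩ := ih Q.card hc Q rfl (fun p hp => hP p (hQP.subset hp)) hQ
      exact ⟨R, hR.trans hQP.subset, hR'⟩

/-- The reduction: sets of infinite type with arbitrarily large primes suffice. -/
lemma infinite_of_large (h : ∀ M : ℕ, ∃ P : Finset ℕ, (∀ p ∈ P, p.Prime ∧ M < p) ∧ ¬ FiniteType P) :
    {P : Finset ℕ | IsPrimitive P}.Infinite := by
  intro hfin
  obtain ⟨P, hP, hinf⟩ := h ((hfin.toFinset.biUnion id).sup id)
  obtain ⟨Q, hQP, hQ⟩ := exists_primitive_subset _ P rfl (fun p hp => (hP p hp).1) hinf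
  have hne : Q.Nonempty := by
    rw [Finset.nonempty_iff_ne_empty]
    rintro rfl
    exact hQ.2.1 finiteType_empty
  obtain ⟨p, hp⟩ := hne
  have h1 := (hP p (hQP hp)).2
  have h2 : p ∈ hfin.toFinset.biUnion id := by
    rw [Finset.mem_biUnion]
    exact ⟨Q, by simpa using hQ, hp⟩
  have h3 : p ≤ (hfin.toFinset.biUnion id).sup id := Finset.le_sup (f := id) h2
  omega

end Pool.Agent.Lib.MP_a22f36
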