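import Mathlib
import Pool.Agent.Lib.MP_a22f36.Reduce
import Pool.Agent.Lib.MP_a22f36.Dyn

set_option autoImplicit false
set_option linter.unusedSectionVars false

/-!
# Infinitely many primitive sets
-/

namespace Pool.Agent.Lib.MP_a22f36

lemma small_product (M : ℕ) (δ : ℝ) (hδ : 0 < δ) : ∃ P : Finset ℕ, (∀ p ∈ P, p.Prime ∧ M < p) ∧
    ∏ p ∈ P, (p : ℝ) < δ * ∏ p ∈ P, ((p : ℝ) + 1) := by
  classical
  set F : ℕ → ℝ := Set.indicator {p : ℕ | p.Prime} (fun n : ℕ => (1 : ℝ) / n) with hF
  have hF0 : ∀ n, 0 ≤ F n := fun n => Set.indicator_nonneg (fun n _ => by positivity) n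
  have hF1 : ∀ n, F n ≤ 1 := by
    intro n
    rw [hF]
    by_cases h : n ∈ {p : ℕ | p.Prime}
    · rw [Set.indicator_of_mem h]
      have h1 : (1 : ℝ) ≤ n := by
        have := (h : n.Prime).one_le
        exact_mod_cast this
      rw [div_le_one (by linarith)]; exact h1
    · rw [Set.indicator_of_notMem h]; norm_num
  have hdiv := (not_summable_iff_tendsto_nat_atTop_of_nonneg hF0).mp not_summable_one_div_on_primes
  obtain ⟨K, hK⟩ := (hdiv.eventually_gt_atTop ((M : ℝ) + 1 + 2 * Real.log (1 / δ))).exists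
  set P : Finset ℕ := (Finset.range K).filter fun p => p.Prime ∧ M < p with hP
  have hmem : ∀ p ∈ P, p.Prime ∧ M < p := by
    intro p hp
    rw [hP, Finset.mem_filter] at hp
    exact hp.2
  refine ⟨P, hmem, ?_⟩
  have hsum : ∑ n ∈ Finset.range K, F n ≤ (M : ℝ) + 1 + ∑ p ∈ P, (1 : ℝ) / p := by
    have hsub : Finset.range K ⊆ Finset.range (M + 1) ∪
        (Finset.range K).filter (fun n => M < n) := by
      intro n hn
      rw [Finset.mem_union, Finset.mem_filter, Finset.mem_range]
      by_cases h : n < M + 1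
      · left; exact h
      · right; exact ⟨hn, by omega⟩
    have h1 : ∑ n ∈ Finset.range K, F n ≤ ∑ n ∈ Finset.range (M + 1) ∪
        (Finset.range K).filter (fun n => M < n), F n :=
      Finset.sum_le_sum_of_subset_of_nonneg hsub fun n _ _ => hF0 n
    have h2 : ∑ n ∈ Finset.range (M + 1) ∪ (Finset.range K).filter (fun n => M < n), F n ≤
        ∑ n ∈ Finset.range (M + 1), F n + ∑ n ∈ (Finset.range K).filter (fun n => M < n), F n := by
      have := Finset.sum_union_inter (s₁ := Finset.range (M + 1))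
        (s₂ := (Finset.range K).filter (fun n => M < n)) (f := F)
      have h3 : 0 ≤ ∑ n ∈ Finset.range (M + 1) ∩ (Finset.range K).filter (fun n => M < n), F n :=
        Finset.sum_nonneg fun n _ => hF0 n
      linarith
    have h3 : ∑ n ∈ Finset.range (M + 1), F n ≤ (M : ℝ) + 1 := by
      calc ∑ n ∈ Finset.range (M + 1), F n ≤ ∑ n ∈ Finset.range (M + 1), (1 : ℝ) :=
            Finset.sum_le_sum fun n _ => hF1 n
        _ = (M : ℝ) + 1 := by simp
    have h4 : ∑ n ∈ (Finset.range K).filter (fun n => M < n), F n = ∑ p ∈ P, (1 : ℝ) / p := by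
      have e : P = ((Finset.range K).filter (fun n => M < n)).filter (fun n => n.Prime) := by
        rw [hP, Finset.filter_filter]
        apply Finset.filter_congr
        intro n _
        exact and_comm
      rw [e, Finset.sum_filter (fun n : ℕ => n.Prime)]
      refine Finset.sum_congr rfl fun n _ => ?_
      rw [hF]
      by_cases h : n.Prime
      · rw [if_pos h, Set.indicator_of_mem (show n ∈ {p : ℕ | p.Prime} from h)]
      · rw [if_neg h, Set.indicator_of_notMem (show n ∉ {p : ℕ | p.Prime} from h)]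
    linarith
  have hpos : (0 : ℝ) < ∏ p ∈ P, ((p : ℝ) + 1) := Finset.prod_pos fun p _ => by positivity
  rw [← div_lt_iff₀ hpos, ← Finset.prod_div_distrib]
  have hle : ∏ p ∈ P, ((p : ℝ) / (p + 1)) ≤ ∏ p ∈ P, Real.exp (-(1 / 2) * (1 / p)) := by
    apply Finset.prod_le_prod
    · intro p _; positivity
    · intro p hp
      have h1 : (1 : ℝ) ≤ p := by
        have := (hmem p hp).1.one_le
        exact_mod_cast this
      have h2 := Real.add_one_le_exp (-(1 / 2) * (1 / (p : ℝ)))
      refine le_trans ?_ h2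
      have h3 : (1 : ℝ) / (2 * p) ≤ 1 / (p + 1) := by
        apply one_div_le_one_div_of_le (by linarith) (by linarith)
      have h4 : (p : ℝ) / (p + 1) = 1 - 1 / (p + 1) := by field_simp; ring
      have h5 : -(1 / 2) * (1 / (p : ℝ)) = - (1 / (2 * p)) := by field_simp
      rw [h4, h5]
      linarith
  refine lt_of_le_of_lt hle ?_
  rw [← Real.exp_sum, ← Finset.mul_sum]
  have h6 : -(1 / 2) * ∑ p ∈ P, (1 : ℝ) / p < Real.log δ := by
    have : Real.log (1 / δ) = - Real.log δ := by rw [one_div, Real.log_inv]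
    rw [this] at hK
    linarith
  calc Real.exp (-(1 / 2) * ∑ p ∈ P, (1 : ℝ) / p) < Real.exp (Real.log δ) := Real.exp_lt_exp.mpr h6
    _ = δ := Real.exp_log hδ

theorem large_infinite_type (M : ℕ) :
    ∃ P : Finset ℕ, (∀ p ∈ P, p.Prime ∧ M < p) ∧ ¬ FiniteType P := by
  obtain ⟨c0, hc0, M0, hexp⟩ := expansion
  set δ : ℝ := min (1 / 3) (c0 / 36) / 2 with hδ
  have hδ0 : 0 < δ := by
    have : 0 < min (1 / 3) (c0 / 36) := lt_min (by norm_num) (by positivity)
    positivity
  obtain ⟨P, hP, hprod⟩ := small_product (max M M0) δ hδ0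
  refine ⟨P, fun p hp => ⟨(hP p hp).1, lt_of_le_of_lt (le_max_left _ _) (hP p hp).2⟩, ?_⟩
  apply infinite_type P (fun p hp => (hP p hp).1)
  intro hF
  apply exists_good
  intro N
  have hV : (Fintype.card (∀ i : P, Pt (i : ℕ)) : ℝ) = ∏ p ∈ P, ((p : ℝ) + 1) := by
    rw [card_V (fun i : P => (i : ℕ))]
    push_cast
    exact Finset.prod_coe_sort P (fun q => ((q : ℝ) + 1))
  have hB : ((Bad (fun i : P => (i : ℕ))).card : ℝ) < 2 * δ * Fintype.card (∀ i : P, Pt (i : ℕ)) := by
    have h1 := card_Bad (fun i : P => (i : ℕ))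
    have h2 : ((Bad (fun i : P => (i : ℕ))).card : ℝ) ≤ ((2 * ∏ i : P, (i : ℕ) : ℕ) : ℝ) :=
      Nat.cast_le.mpr h1
    push_cast at h2
    have h3 : ∏ i : P, ((i : ℕ) : ℝ) = ∏ p ∈ P, (p : ℝ) := Finset.prod_coe_sort P (fun q => (q : ℝ))
    rw [h3] at h2
    rw [hV]
    linarith
  have hVpos : (0 : ℝ) < Fintype.card (∀ i : P, Pt (i : ℕ)) := by
    rw [hV]; exact Finset.prod_pos fun p _ => by positivity
  have h2δ : 2 * δ = min (1 / 3) (c0 / 36) := by rw [hδ]; ring
  rw [h2δ] at hB
  refine Cn_ne_univ (fun i : P => (i : ℕ)) c0 hc0 ?_ ?_ ?_ N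
  · exact hexp P (fun i : P => (i : ℕ)) Subtype.val_injective
      (fun i => (le_max_right M M0).trans (hP i i.2).2.le)
  · exact lt_of_lt_of_le hB (mul_le_mul_of_nonneg_right (min_le_left _ _) hVpos.le)
  · exact lt_of_lt_of_le hB (mul_le_mul_of_nonneg_right (min_le_right _ _) hVpos.le)

/-- There are infinitely many primitive sets. -/
theorem main : {P : Finset ℕ | IsPrimitive P}.Infinite :=
  infinite_of_large large_infinite_type

end Pool.Agent.Lib.MP_a22f36
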